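import Pool.Agent.RieszF.Defs

set_option autoImplicit false

open Real Finset

namespace Pool.Agent.RieszF

open Pool.Agent.RieszSmall (En)

section

variable {ι : Type*} [Fintype ι] [DecidableEq ι] {V : Type*} [NormedAddCommGroup V]
  [InnerProductSpace ℝ V]

omit [DecidableEq ι] in
/-- an affine dependency. -/
theorem exists_dep [FiniteDimensional ℝ V] (x : ι → V)
    (hcard : Module.finrank ℝ V + 1 < Fintype.card ι) :
    ∃ c : ι → ℝ, c ≠ 0 ∧ ∑ i, c i = 0 ∧ ∑ i, c i • x i = 0 := by
  let f : (ι → ℝ) →ₗ[ℝ] V × ℝ :=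
    { toFun := fun c => (∑ i, c i • x i, ∑ i, c i)
      map_add' := fun c d => by
        simp only [Pi.add_apply, add_smul, Finset.sum_add_distrib, Prod.mk_add_mk]
      map_smul' := fun r c => by
        simp only [Pi.smul_apply, smul_eq_mul, mul_smul, RingHom.id_apply, Prod.smul_mk,
          Finset.smul_sum, Finset.mul_sum] }
  have hker : LinearMap.ker f ≠ ⊥ := by
    apply LinearMap.ker_ne_bot_of_finrank_lt
    rw [Module.finrank_prod, Module.finrank_self, Module.finrank_fintype_fun_eq_card]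
    exact hcard
  obtain ⟨c, hc, hc0⟩ := (Submodule.ne_bot_iff _).1 hker
  have h1 : f c = 0 := hc
  have h2 : (∑ i, c i • x i, ∑ i, c i) = ((0, 0) : V × ℝ) := h1
  exact ⟨c, hc0, (Prod.mk.inj h2).2, (Prod.mk.inj h2).1⟩

/-- removing the diagonal. -/
private theorem S2Trace_off (f : ι → ι → ℝ) :
    ∑ i, ∑ j, (if i = j then 0 else f i j) = ∑ i, ∑ j, f i j - ∑ i, f i i := by
  rw [← Finset.sum_sub_distrib]
  refine Finset.sum_congr rfl fun i _ => ?_
  have h : ∑ j, (if i = j then f i j else 0) = f i i := by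
    rw [Finset.sum_ite_eq]
    simp
  rw [← h, ← Finset.sum_sub_distrib]
  refine Finset.sum_congr rfl fun j _ => ?_
  split_ifs <;> ring

omit [DecidableEq ι] in
private theorem S2Trace_gram (x : ι → V) :
    ∑ i, ∑ j, inner ℝ (x i) (x j) = ‖∑ i, x i‖ ^ 2 := by
  rw [← real_inner_self_eq_norm_sq, sum_inner]
  refine Finset.sum_congr rfl fun i _ => ?_
  rw [inner_sum]

/-- S3a: the energy is larger than that of `n` equiangular points.
Proof: `tan_le` at `a = n/(n-1)` and `∑_{i≠j} (1 - x_i·x_j) = n² - ‖∑ x‖² ≤ n² = n(n-1)a`.  Equality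
forces `x_i·x_j = -1/(n-1)` for all `i ≠ j`, and then `‖∑ c_i x_i‖² = (1+1/(n-1)) ∑ c_i²` for
`∑ c = 0`, contradicting `exists_dep`. -/
theorem energy_gt [FiniteDimensional ℝ V] {q : ℝ} (hq : 0 < q) {x : ι → V} (h : Conf x)
    (hcard : Module.finrank ℝ V + 1 < Fintype.card ι) (h2 : 2 ≤ Fintype.card ι) :
    (Fintype.card ι : ℝ) * ((Fintype.card ι : ℝ) - 1) *
      ((Fintype.card ι : ℝ) / ((Fintype.card ι : ℝ) - 1)) ^ (-q) < En q x := by
  set n : ℝ := (Fintype.card ι : ℝ) with hn
  have hn2 : (2 : ℝ) ≤ n := by rw [hn]; exact_mod_cast h2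
  set a : ℝ := n / (n - 1) with ha
  have hn1 : n - 1 ≠ 0 := by linarith
  have ha0 : 0 < a := div_pos (by linarith) (by linarith)
  have han : n * (n - 1) * a = n ^ 2 := by
    rw [ha]; field_simp
  set A : ℝ := a ^ (-(q + 1)) with hA
  have hA0 : 0 < A := Real.rpow_pos_of_pos ha0 _
  set f : ι → ι → ℝ := fun i j => a ^ (-q) - q * A * (1 - inner ℝ (x i) (x j) - a) with hf
  -- the sum of the tangents
  have hsum : ∑ i, ∑ j, (if i = j then 0 else f i j) =
      n * (n - 1) * a ^ (-q) + q * A * ‖∑ i, x i‖ ^ 2 := by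
    rw [S2Trace_off]
    have h3 : ∑ i, f i i = n * (a ^ (-q) + q * A * a) := by
      have : ∀ i, f i i = a ^ (-q) + q * A * a := by
        intro i
        simp only [hf, h.inner_self]
        ring
      rw [Finset.sum_congr rfl fun i _ => this i, Finset.sum_const, Finset.card_univ, nsmul_eq_mul]
    have h4 : ∑ i, ∑ j, f i j =
        n ^ 2 * (a ^ (-q) - q * A * (1 - a)) + q * A * ‖∑ i, x i‖ ^ 2 := by
      have h5 : ∀ i j, f i j =
          (a ^ (-q) - q * A * (1 - a)) + q * A * inner ℝ (x i) (x j) := by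
        intro i j
        simp only [hf]
        ring
      simp only [h5]
      simp only [Finset.sum_add_distrib, Finset.sum_const, Finset.card_univ, nsmul_eq_mul,
        ← Finset.mul_sum]
      rw [S2Trace_gram]
      ring
    rw [h3, h4]
    linear_combination (q * A) * han
  have hle : ∀ i j, (if i = j then 0 else f i j) ≤
      (if i = j then 0 else (1 - inner ℝ (x i) (x j)) ^ (-q)) := by
    intro i j
    split_ifs with hij
    · exact le_refl _
    · exact tan_le hq ha0 (h.dd_pos hij)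
  by_contra hcon
  push Not at hcon
  have hpos : 0 ≤ q * A * ‖∑ i, x i‖ ^ 2 := by positivity
  have hEn : En q x = ∑ i, ∑ j, (if i = j then 0 else (1 - inner ℝ (x i) (x j)) ^ (-q)) := rfl
  have hz : ∑ i, ∑ j, ((if i = j then 0 else (1 - inner ℝ (x i) (x j)) ^ (-q)) -
      (if i = j then 0 else f i j)) = 0 := by
    refine le_antisymm ?_ (Finset.sum_nonneg fun i _ => Finset.sum_nonneg fun j _ =>
      sub_nonneg.2 (hle i j))
    simp only [Finset.sum_sub_distrib]
    rw [hsum, ← hEn]
    linarith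
  have hD : ∀ i j, i ≠ j → 1 - inner ℝ (x i) (x j) = a := by
    intro i j hij
    rw [Finset.sum_eq_zero_iff_of_nonneg (fun i _ => Finset.sum_nonneg fun j _ =>
      sub_nonneg.2 (hle i j))] at hz
    have h3 := hz i (Finset.mem_univ _)
    rw [Finset.sum_eq_zero_iff_of_nonneg (fun j _ => sub_nonneg.2 (hle i j))] at h3
    have h4 := h3 j (Finset.mem_univ _)
    rw [if_neg hij, if_neg hij] at h4
    exact tan_eq hq ha0 (h.dd_pos hij) (by simp only [hf] at h4; linarith)
  -- the dependency
  obtain ⟨c, hc0, hcs, hcx⟩ := exists_dep x hcard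
  have h5 : ∑ i, ∑ j, c i * c j * inner ℝ (x i) (x j) = 0 := by
    have h6 : inner ℝ (∑ i, c i • x i) (∑ i, c i • x i) =
        ∑ i, ∑ j, c i * c j * inner ℝ (x i) (x j) := by
      rw [sum_inner]
      refine Finset.sum_congr rfl fun i _ => ?_
      rw [inner_sum]
      refine Finset.sum_congr rfl fun j _ => ?_
      rw [real_inner_smul_left, real_inner_smul_right]
      ring
    rw [← h6, hcx, inner_zero_left]
  have h7 : ∀ i j, c i * c j * inner ℝ (x i) (x j) =
      (1 - a) * (c i * c j) + (if i = j then a * (c i * c j) else 0) := by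
    intro i j
    split_ifs with hij
    · subst hij
      rw [h.inner_self]
      ring
    · have := hD i j hij
      have h8 : inner ℝ (x i) (x j) = 1 - a := by linarith
      rw [h8]
      ring
  simp only [h7, Finset.sum_add_distrib] at h5
  have h9 : ∑ i, ∑ j, (1 - a) * (c i * c j) = 0 := by
    simp only [← Finset.mul_sum, hcs, mul_zero, Finset.sum_const_zero]
  have h10 : ∑ i, ∑ j, (if i = j then a * (c i * c j) else 0) = a * ∑ i, c i * c i := by
    rw [Finset.mul_sum]
    refine Finset.sum_congr rfl fun i _ => ?_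
    rw [Finset.sum_ite_eq]
    simp
  rw [h9, h10, zero_add] at h5
  have h11 : ∑ i, c i * c i = 0 := (mul_eq_zero.1 h5).resolve_left ha0.ne'
  rw [Finset.sum_eq_zero_iff_of_nonneg (fun i _ => mul_self_nonneg _)] at h11
  apply hc0
  funext i
  exact mul_self_eq_zero.1 (h11 i (Finset.mem_univ _))

/-- S3b (trace inequality), `n tr K < ∑ K`.
Proof: `a = n/(n-1)`; `tan_le` at `1 - x_i·x_j` for the point `a`, summed over `i ≠ j`:
`n(n-1) a^(-q) ≥ En - q ∑_{i≠j} K_ij (a - D_ij)`, and
`∑_{i≠j} K_ij (a - D_ij) = (∑ K)/(n-1) - n/(n-1) tr K` because `∑_{i≠j} K_ij x_i·x_j = - tr K`. -/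
theorem trace_lt [FiniteDimensional ℝ V] {q : ℝ} (hq : 0 < q) {x : ι → V} (h : Conf x)
    (hcard : Module.finrank ℝ V + 1 < Fintype.card ι) (h2 : 2 ≤ Fintype.card ι) :
    (Fintype.card ι : ℝ) * ∑ i, KK q x i i < ∑ i, ∑ j, KK q x i j := by
  have hgt := energy_gt hq h hcard h2
  set n : ℝ := (Fintype.card ι : ℝ) with hn
  have hn2 : (2 : ℝ) ≤ n := by rw [hn]; exact_mod_cast h2
  set a : ℝ := n / (n - 1) with ha
  have hn1 : n - 1 ≠ 0 := by linarith
  have hn1' : 0 < n - 1 := by linarith
  have ha0 : 0 < a := div_pos (by linarith) (by linarith)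
  have han : (n - 1) * a = n := by
    rw [ha]; field_simp
  set T : ℝ := ∑ i, KK q x i i with hT
  set S : ℝ := ∑ i, ∑ j, KK q x i j with hS
  have hEn : En q x = ∑ i, ∑ j, (if i = j then 0 else (1 - inner ℝ (x i) (x j)) ^ (-q)) := rfl
  -- tangents
  have h3 : ∀ i j, (if i = j then 0 else (1 - inner ℝ (x i) (x j)) ^ (-q)) -
      (if i = j then 0 else a ^ (-q)) ≤
      q * (if i = j then 0 else KK q x i j * (a - 1 + inner ℝ (x i) (x j))) := by
    intro i j
    split_ifs with hij
    · simp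
    · have := tan_le hq (h.dd_pos hij) ha0
      rw [KK_ne q x hij]
      linarith
  have h4 : En q x - n * (n - 1) * a ^ (-q) ≤
      q * ∑ i, ∑ j, (if i = j then 0 else KK q x i j * (a - 1 + inner ℝ (x i) (x j))) := by
    have h5 : ∑ i : ι, ∑ j : ι, (if i = j then (0 : ℝ) else a ^ (-q)) =
        n * (n - 1) * a ^ (-q) := by
      rw [S2Trace_off (fun _ _ : ι => a ^ (-q))]
      simp only [Finset.sum_const, Finset.card_univ, nsmul_eq_mul]
      rw [← hn]
      ring
    rw [hEn, ← h5, ← Finset.sum_sub_distrib, Finset.mul_sum]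
    refine Finset.sum_le_sum fun i _ => ?_
    rw [← Finset.sum_sub_distrib, Finset.mul_sum]
    exact Finset.sum_le_sum fun j _ => h3 i j
  -- the right side
  have h6 : ∑ i, ∑ j, (if i = j then 0 else KK q x i j * inner ℝ (x i) (x j)) = -T := by
    rw [hT, ← Finset.sum_neg_distrib]
    refine Finset.sum_congr rfl fun i _ => ?_
    have h7 : KK q x i i =
        -∑ k ∈ univ.erase i, (1 - inner ℝ (x i) (x k)) ^ (-(q + 1)) * inner ℝ (x i) (x k) := by
      unfold KK
      rw [if_pos rfl]
    rw [h7, neg_neg, ← Finset.add_sum_erase univ _ (Finset.mem_univ i), if_pos rfl, zero_add]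
    refine Finset.sum_congr rfl fun j hj => ?_
    have hij : i ≠ j := (Finset.ne_of_mem_erase hj).symm
    rw [if_neg hij, KK_ne q x hij]
  have h8 : ∑ i, ∑ j, (if i = j then 0 else KK q x i j) = S - T := S2Trace_off _
  have h9 : ∑ i, ∑ j, (if i = j then 0 else KK q x i j * (a - 1 + inner ℝ (x i) (x j))) =
      (a - 1) * (S - T) - T := by
    rw [← h8, Finset.mul_sum]
    have h10 : (∑ i, (a - 1) * ∑ j, (if i = j then 0 else KK q x i j)) - T =
        ∑ i, (a - 1) * ∑ j, (if i = j then 0 else KK q x i j) +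
          ∑ i, ∑ j, (if i = j then 0 else KK q x i j * inner ℝ (x i) (x j)) := by
      rw [h6]; ring
    rw [h10, ← Finset.sum_add_distrib]
    refine Finset.sum_congr rfl fun i _ => ?_
    rw [Finset.mul_sum, ← Finset.sum_add_distrib]
    refine Finset.sum_congr rfl fun j _ => ?_
    split_ifs <;> ring
  rw [h9] at h4
  have h11 : 0 < (a - 1) * (S - T) - T := by
    by_contra hcon
    push Not at hcon
    have : q * ((a - 1) * (S - T) - T) ≤ 0 := mul_nonpos_of_nonneg_of_nonpos hq.le hcon
    linarith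
  have h12 : (n - 1) * ((a - 1) * (S - T) - T) = S - n * T := by
    linear_combination (S - T) * han
  have h13 : 0 < (n - 1) * ((a - 1) * (S - T) - T) := mul_pos hn1' h11
  linarith

end

end Pool.Agent.RieszF
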