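import Pool.Agent.RieszF.Defs

set_option autoImplicit false

open Real Finset

namespace Pool.Agent.RieszF

open Pool.Agent.RieszSmall (En)

section

variable {ι : Type*} [Fintype ι] [DecidableEq ι] {V : Type*} [NormedAddCommGroup V]
  [InnerProductSpace ℝ V]

/-- S4: the points span.  Otherwise there is a unit vector orthogonal to all of them, and summing
`K_ii + K_kk - 2 K_ik ≥ 0` over all `i, k` gives `n tr K ≥ ∑ K`. -/
theorem span_eq_top [FiniteDimensional ℝ V] {x : ι → V} (K : ι → ι → ℝ)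
    (htp : ∀ e : V, ‖e‖ = 1 → (∀ j, inner ℝ (x j) e = (0 : ℝ)) → ∀ i k, i ≠ k →
      2 * K i k ≤ K i i + K k k)
    (htr : (Fintype.card ι : ℝ) * ∑ i, K i i < ∑ i, ∑ j, K i j) :
    Submodule.span ℝ (Set.range x) = ⊤ := by
  by_contra hne
  have h1 : (Submodule.span ℝ (Set.range x))ᗮ ≠ ⊥ := by
    intro h2
    exact hne (Submodule.orthogonal_eq_bot_iff.1 h2)
  obtain ⟨v, hv, hv0⟩ := Submodule.exists_mem_ne_zero_of_ne_bot h1
  have hvn : 0 < ‖v‖ := norm_pos_iff.2 hv0
  have horth : ∀ j, inner ℝ (x j) v = (0 : ℝ) := fun j =>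
    (Submodule.mem_orthogonal _ v).1 hv (x j) (Submodule.subset_span ⟨j, rfl⟩)
  have h2 := htp (‖v‖⁻¹ • v) (by
    rw [norm_smul, norm_inv, norm_norm]
    exact inv_mul_cancel₀ hvn.ne') (fun j => by rw [inner_smul_right, horth, mul_zero])
  have h3 : ∀ i k, 2 * K i k ≤ K i i + K k k := by
    intro i k
    by_cases hik : i = k
    · rw [hik]; linarith
    · exact h2 i k hik
  have h4 : ∑ i, ∑ k, 2 * K i k ≤ ∑ i, ∑ k, (K i i + K k k) :=
    sum_le_sum fun i _ => sum_le_sum fun k _ => h3 i k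
  have h5 : ∑ i, ∑ k, 2 * K i k = 2 * ∑ i, ∑ k, K i k := by
    simp only [mul_sum]
  have h6 : ∑ i : ι, ∑ k : ι, (K i i + K k k) = 2 * ((Fintype.card ι : ℝ) * ∑ i, K i i) := by
    simp only [sum_add_distrib, sum_const, card_univ, nsmul_eq_mul, ← mul_sum]
    ring
  linarith

/-- `∑_{i,j} K_ij = En`, by the Lagrange condition. -/
theorem sum_KK_eq {q : ℝ} {x : ι → V} (h : Conf x)
    (hlag : ∀ i, ∑ j, KK q x i j • x j = 0) : ∑ i, ∑ j, KK q x i j = En q x := by
  unfold En
  refine sum_congr rfl fun i _ => ?_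
  have h1 : ∑ j, KK q x i j * inner ℝ (x i) (x j) = (0 : ℝ) := by
    have h2 := congrArg (fun y => inner ℝ (x i) y) (hlag i)
    simp only [inner_sum, inner_smul_right, inner_zero_right] at h2
    exact h2
  have h2 : ∑ j, KK q x i j = ∑ j, KK q x i j * (1 - inner ℝ (x i) (x j)) := by
    simp only [mul_sub, mul_one, sum_sub_distrib, h1, sub_zero]
  rw [h2]
  refine sum_congr rfl fun j _ => ?_
  by_cases hij : i = j
  · rw [if_pos hij, hij, h.inner_self, sub_self, mul_zero]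
  · rw [if_neg hij, KK_ne q x hij, ← Real.rpow_add_one (h.dd_pos hij).ne']
    congr 1
    ring

/-- S5 (linear algebra).  `W0 = {c : ∑ c = 0, ∑ c_i x_i = 0}` has dimension `1`,
`b = K 1 / √(∑ K)`, and `K - b bᵀ = c a aᵀ` with `c < 0` (if `c ≥ 0` then
`∑_{i,k} (K_ii + K_kk - 2 K_ik) ≥ 0`, contradicting `htr`). -/
theorem exists_splitting [FiniteDimensional ℝ V] {x : ι → V} (K : ι → ι → ℝ)
    (hsymm : ∀ i j, K i j = K j i)
    (hspan : Submodule.span ℝ (Set.range x) = ⊤)
    (hcard : Fintype.card ι = Module.finrank ℝ V + 2)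
    (hlag : ∀ i, ∑ j, K i j • x j = 0)
    (hsum : 0 < ∑ i, ∑ j, K i j)
    (htr : (Fintype.card ι : ℝ) * ∑ i, K i i < ∑ i, ∑ j, K i j) :
    ∃ a b : ι → ℝ, a ≠ 0 ∧ ∑ i, a i = 0 ∧ 0 < ∑ i, b i ∧ ∑ i, a i • x i = 0 ∧
      ∑ i, b i • x i = 0 ∧ ∀ i j, K i j = b i * b j - a i * a j := by
  set S : ℝ := ∑ i, ∑ j, K i j with hS
  have hsq : 0 < √S := Real.sqrt_pos.2 hsum
  have hSS : √S * √S = S := Real.mul_self_sqrt hsum.le
  set b : ι → ℝ := fun i => (∑ j, K i j) / √S with hb
  have hbi : ∀ i, b i * √S = ∑ j, K i j := fun i => div_mul_cancel₀ _ hsq.ne'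
  have hbsum : ∑ i, b i = √S := by
    have h1 : (∑ i, b i) * √S = √S * √S := by
      rw [hSS, sum_mul, hS]
      exact sum_congr rfl fun i _ => hbi i
    exact mul_right_cancel₀ hsq.ne' h1
  have hbx : ∑ i, b i • x i = 0 := by
    have h1 : √S • ∑ i, b i • x i = 0 := by
      rw [smul_sum]
      have h2 : ∀ i, √S • b i • x i = ∑ j, K j i • x i := by
        intro i
        rw [smul_smul, mul_comm, hbi, sum_smul]
        exact sum_congr rfl fun j _ => by rw [hsymm]
      rw [sum_congr rfl fun i _ => h2 i, sum_comm]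
      exact sum_eq_zero fun j _ => hlag j
    exact (smul_eq_zero.1 h1).resolve_left hsq.ne'
  -- the kernel
  set T : (ι → ℝ) →ₗ[ℝ] V × ℝ := LinearMap.prod (Fintype.linearCombination ℝ x)
    (Fintype.linearCombination ℝ (fun _ : ι => (1 : ℝ))) with hT
  have hTa : ∀ c : ι → ℝ, T c = (∑ i, c i • x i, ∑ i, c i) := by
    intro c
    simp [hT, Fintype.linearCombination_apply]
  have hsurj : Function.Surjective T := by
    rintro ⟨v, t⟩
    have hv : v ∈ Submodule.span ℝ (Set.range x) := by rw [hspan]; exact Submodule.mem_top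
    obtain ⟨c, hc⟩ := (Submodule.mem_span_range_iff_exists_fun ℝ).1 hv
    refine ⟨c + ((t - ∑ i, c i) / √S) • b, ?_⟩
    have h1 : T b = (0, √S) := by rw [hTa, hbx, hbsum]
    rw [map_add, map_smul, h1, hTa, hc, Prod.smul_mk, smul_zero, Prod.mk_add_mk, add_zero,
      smul_eq_mul, div_mul_cancel₀ _ hsq.ne', add_sub_cancel]
  have hker : Module.finrank ℝ (LinearMap.ker T) = 1 := by
    have h1 := LinearMap.finrank_range_add_finrank_ker T
    rw [LinearMap.range_eq_top.2 hsurj, finrank_top, Module.finrank_prod, Module.finrank_self,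
      Module.finrank_fintype_fun_eq_card] at h1
    omega
  obtain ⟨⟨a0, ha0⟩, ha0ne, hspan0⟩ := finrank_eq_one_iff'.1 hker
  have ha0' := LinearMap.mem_ker.1 ha0
  rw [hTa, Prod.mk_eq_zero] at ha0'
  have ha0ne' : a0 ≠ 0 := fun h => ha0ne (Subtype.ext h)
  -- the rows of `K - b bᵀ`
  have hrow : ∀ i, ∃ r : ℝ, ∀ j, K i j - b i * b j = r * a0 j := by
    intro i
    have hmem : (fun j => K i j - b i * b j) ∈ LinearMap.ker T := by
      rw [LinearMap.mem_ker, hTa, Prod.mk_eq_zero]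
      constructor
      · simp only [sub_smul, sum_sub_distrib, mul_smul, ← smul_sum, hbx, smul_zero, sub_zero]
        exact hlag i
      · rw [sum_sub_distrib, ← mul_sum, hbsum, hbi, sub_self]
    obtain ⟨r, hr⟩ := hspan0 ⟨_, hmem⟩
    refine ⟨r, fun j => ?_⟩
    have h1 := congrFun (congrArg Subtype.val hr) j
    exact h1.symm
  choose r hr using hrow
  obtain ⟨k, hk⟩ : ∃ k, a0 k ≠ 0 := by
    by_contra hno
    push Not at hno
    exact ha0ne' (funext hno)
  set c : ℝ := r k / a0 k with hc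
  have hM : ∀ i j, K i j - b i * b j = c * (a0 i * a0 j) := by
    intro i j
    have h1 : r i * a0 k = r k * a0 i := by
      rw [← hr i k, ← hr k i, hsymm i k]; ring
    have h2 : r i = c * a0 i := by
      rw [hc]
      field_simp
      linarith
    rw [hr i j, h2]; ring
  have hneg : c < 0 := by
    by_contra hc0
    have hc0 : 0 ≤ c := not_lt.1 hc0
    have h1 : ∀ i j, K i j = b i * b j + c * (a0 i * a0 j) := fun i j => by linarith [hM i j]
    have h2 : ∑ i, K i i = ∑ i, b i ^ 2 + c * ∑ i, a0 i ^ 2 := by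
      rw [mul_sum, ← sum_add_distrib]
      exact sum_congr rfl fun i _ => by rw [h1]; ring
    have h3 : (∑ i, b i) ^ 2 ≤ (Fintype.card ι : ℝ) * ∑ i, b i ^ 2 := by
      have := sq_sum_le_card_mul_sum_sq (s := (univ : Finset ι)) (f := b)
      rwa [card_univ] at this
    rw [hbsum, sq, hSS] at h3
    have h4 : 0 ≤ (Fintype.card ι : ℝ) * (c * ∑ i, a0 i ^ 2) := by positivity
    rw [h2, mul_add] at htr
    linarith
  refine ⟨fun i => √(-c) * a0 i, b, ?_, ?_, ?_, ?_, hbx, ?_⟩
  · intro h0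
    have h1 := congrFun h0 k
    have h2 : √(-c) * a0 k = 0 := h1
    rcases mul_eq_zero.1 h2 with h3 | h3
    · exact (Real.sqrt_pos.2 (neg_pos.2 hneg)).ne' h3
    · exact hk h3
  · rw [← mul_sum, ha0'.2, mul_zero]
  · rw [hbsum]; exact hsq
  · simp only [mul_smul, ← smul_sum, ha0'.1, smul_zero]
  · intro i j
    have h1 := hM i j
    have h2 : √(-c) * √(-c) = -c := Real.mul_self_sqrt (neg_nonneg.2 hneg.le)
    have h3 : √(-c) * a0 i * (√(-c) * a0 j) = -c * (a0 i * a0 j) := by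
      calc √(-c) * a0 i * (√(-c) * a0 j) = (√(-c) * √(-c)) * (a0 i * a0 j) := by ring
        _ = -c * (a0 i * a0 j) := by rw [h2]
    rw [h3]
    linarith

end

end Pool.Agent.RieszF
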