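import Pool.Agent.RieszF.Defs

set_option autoImplicit false

open Real Finset

namespace Pool.Agent.RieszF

open Pool.Agent.RieszSmall (En)

section

variable {ι : Type*} [Fintype ι] [DecidableEq ι] {V : Type*} [NormedAddCommGroup V]
  [InnerProductSpace ℝ V]

/-- S6a: at least two positive coefficients (apply it to `-a` for the negative ones).
Proof: if `i0` is the only positive one then `x_{i0}` is a convex combination of the other unit
vectors `x_j`: `‖a_{i0} x_{i0}‖ = ∑ |a_j|`, so `∑ |a_j| (1 - x_{i0}·x_j) = 0`, and some `|a_j| > 0`. -/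
theorem two_pos {x : ι → V} (h : Conf x) {a : ι → ℝ} (ha : a ≠ 0) (hsum : ∑ i, a i = 0)
    (hax : ∑ i, a i • x i = 0) : ∃ i j, i ≠ j ∧ 0 < a i ∧ 0 < a j := by
  obtain ⟨i0, hi0⟩ : ∃ i, 0 < a i := by
    by_contra hno
    push Not at hno
    have h0 : ∀ i ∈ (univ : Finset ι), a i = 0 :=
      (Finset.sum_eq_zero_iff_of_nonpos (fun i _ => hno i)).1 hsum
    exact ha (funext fun i => h0 i (mem_univ i))
  by_contra hno
  push Not at hno
  have hneg : ∀ j, j ≠ i0 → a j ≤ 0 := fun j hj => hno i0 j (Ne.symm hj) hi0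
  have h1 : ∑ i, a i * inner ℝ (x i0) (x i) = 0 := by
    have h2 : inner ℝ (x i0) (∑ i, a i • x i) = (0 : ℝ) := by rw [hax, inner_zero_right]
    rw [inner_sum] at h2
    rw [← h2]
    exact Finset.sum_congr rfl (fun i _ => by rw [real_inner_smul_right])
  have h3 : ∑ i, a i * (1 - inner ℝ (x i0) (x i)) = 0 := by
    have : ∑ i, a i * (1 - inner ℝ (x i0) (x i)) = ∑ i, a i - ∑ i, a i * inner ℝ (x i0) (x i) := by
      rw [← Finset.sum_sub_distrib]
      exact Finset.sum_congr rfl (fun i _ => by ring)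
    rw [this, hsum, h1, sub_zero]
  have h4 : ∀ i ∈ (univ : Finset ι), a i * (1 - inner ℝ (x i0) (x i)) ≤ 0 := by
    intro i _
    by_cases hi : i = i0
    · rw [hi, h.inner_self]; simp
    · exact mul_nonpos_of_nonpos_of_nonneg (hneg i hi) (h.dd_pos (Ne.symm hi)).le
  have h5 := (Finset.sum_eq_zero_iff_of_nonpos h4).1 h3
  have h6 : ∀ i, i ≠ i0 → a i = 0 := by
    intro i hi
    rcases mul_eq_zero.1 (h5 i (mem_univ i)) with h7 | h7
    · exact h7
    · exact absurd h7 (h.dd_pos (Ne.symm hi)).ne'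
  have h7 : ∑ i, a i = a i0 :=
    Finset.sum_eq_single i0 (fun i _ hi => h6 i hi) (fun h8 => absurd (mem_univ i0) h8)
  linarith

omit [DecidableEq ι] in
private theorem S4Sign_aux {a b : ι → ℝ} (hb : 0 < ∑ i, b i)
    (hK : ∀ i j, i ≠ j → 0 < b i * b j - a i * a j)
    (h2 : ∃ i j, i ≠ j ∧ 0 < a i ∧ 0 < a j) (h2' : ∃ i j, i ≠ j ∧ a i < 0 ∧ a j < 0)
    {k : ι} (hk : a k < 0) (hbk : b k ≤ 0) : False := by
  have hnall : ¬ ∀ i, b i ≤ 0 := by
    intro hall
    have : ∑ i, b i ≤ 0 := Finset.sum_nonpos (fun i _ => hall i)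
    linarith
  -- `b < 0` at the other negative ones
  have hneg : ∀ j, j ≠ k → a j < 0 → b k < 0 ∧ b j < 0 := by
    intro j hj haj
    have h1 := hK k j (Ne.symm hj)
    have h3 : 0 < a k * a j := mul_pos_of_neg_of_neg hk haj
    have h4 : 0 < b k * b j := by linarith
    rcases pos_and_pos_or_neg_and_neg_of_mul_pos h4 with h5 | h5
    · linarith [h5.1]
    · exact h5
  have hbk' : b k < 0 := by
    obtain ⟨i, j, hij, hi, hj⟩ := h2'
    by_cases hik : i = k
    · exact (hneg j (fun h3 => hij (hik.trans h3.symm)) hj).1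
    · exact (hneg i hik hi).1
  have hneg' : ∀ j, a j < 0 → b j < 0 := by
    intro j hj
    by_cases hjk : j = k
    · rw [hjk]; exact hbk'
    · exact (hneg j hjk hj).2
  have hz : ∀ l, a l ≠ 0 := by
    intro l hl
    have hlk : l ≠ k := by
      rintro rfl
      linarith
    have h1 := hK l k hlk
    rw [hl, zero_mul, sub_zero] at h1
    have hbl : b l < 0 := by
      rcases pos_and_pos_or_neg_and_neg_of_mul_pos h1 with h5 | h5
      · linarith [h5.2]
      · exact h5.1
    apply hnall
    intro j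
    by_cases hjl : l = j
    · rw [← hjl]; exact hbl.le
    · have h3 := hK l j hjl
      rw [hl, zero_mul, sub_zero] at h3
      rcases pos_and_pos_or_neg_and_neg_of_mul_pos h3 with h5 | h5
      · linarith [h5.1]
      · exact h5.2.le
  -- some `b > 0` on the positive side
  obtain ⟨i0, hi0, hbi0⟩ : ∃ i, 0 < a i ∧ 0 < b i := by
    by_contra hno
    push Not at hno
    apply hnall
    intro i
    rcases lt_trichotomy (a i) 0 with h3 | h3 | h3
    · exact (hneg' i h3).le
    · exact absurd h3 (hz i)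
    · exact hno i h3
  have hpos : ∀ i, 0 < a i → 0 < b i := by
    intro i hi
    by_cases hii : i = i0
    · rw [hii]; exact hbi0
    · have h1 := hK i i0 hii
      have h3 : 0 < a i * a i0 := mul_pos hi hi0
      have h4 : 0 < b i * b i0 := by linarith
      rcases pos_and_pos_or_neg_and_neg_of_mul_pos h4 with h5 | h5
      · exact h5.1
      · linarith [h5.2]
  obtain ⟨i, i', hii, hi, hi'⟩ := h2
  obtain ⟨j, j', hjj, hj, hj'⟩ := h2'
  have hij : i ≠ j := by
    rintro rfl
    linarith
  have hij' : i' ≠ j' := by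
    rintro rfl
    linarith
  have k1 := hK i i' hii
  have k2 := hK j j' hjj
  have k3 := hK i j hij
  have k4 := hK i' j' hij'
  have p1 : 0 < a i * a i' := mul_pos hi hi'
  have p2 : 0 < a j * a j' := mul_pos_of_neg_of_neg hj hj'
  have q1 := hpos i hi
  have q2 := hpos i' hi'
  have q3 := hneg' j hj
  have q4 := hneg' j' hj'
  have r1 : 0 < b i * b i' := mul_pos q1 q2
  have r2 : 0 < b j * b j' := mul_pos_of_neg_of_neg q3 q4
  -- products
  have s1 : (a i * a i') * (a j * a j') < (b i * b i') * (b j * b j') :=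
    mul_lt_mul'' (by linarith) (by linarith) p1.le p2.le
  have t1 : 0 ≤ -(b i * b j) := by
    have := mul_neg_of_pos_of_neg q1 q3
    linarith
  have t2 : 0 ≤ -(b i' * b j') := by
    have := mul_neg_of_pos_of_neg q2 q4
    linarith
  have s2 : (-(b i * b j)) * (-(b i' * b j')) < (-(a i * a j)) * (-(a i' * a j')) :=
    mul_lt_mul'' (by linarith) (by linarith) t1 t2
  nlinarith [s1, s2]

/-- S6b: all `b` are positive (pure sign combinatorics). -/
theorem b_pos {a b : ι → ℝ} (hb : 0 < ∑ i, b i)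
    (hK : ∀ i j, i ≠ j → 0 < b i * b j - a i * a j)
    (h2 : ∃ i j, i ≠ j ∧ 0 < a i ∧ 0 < a j) (h2' : ∃ i j, i ≠ j ∧ a i < 0 ∧ a j < 0) :
    ∀ i, 0 < b i := by
  intro k
  by_contra hbk
  push Not at hbk
  rcases lt_trichotomy (a k) 0 with hk | hk | hk
  · exact S4Sign_aux hb hK h2 h2' hk hbk
  · have hall : ∀ j, b j ≤ 0 := by
      intro j
      by_cases hjk : k = j
      · rw [← hjk]; exact hbk
      · have h3 := hK k j hjk
        rw [hk, zero_mul, sub_zero] at h3
        rcases pos_and_pos_or_neg_and_neg_of_mul_pos h3 with h5 | h5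
        · linarith [h5.1]
        · exact h5.2.le
    have : ∑ i, b i ≤ 0 := Finset.sum_nonpos (fun i _ => hall i)
    linarith
  · refine S4Sign_aux (a := fun i => -a i) (b := b) hb ?_ ?_ ?_ (k := k) ?_ hbk
    · intro i j hij
      have := hK i j hij
      linarith
    · obtain ⟨i, j, hij, hi, hj⟩ := h2'
      exact ⟨i, j, hij, by linarith, by linarith⟩
    · obtain ⟨i, j, hij, hi, hj⟩ := h2
      exact ⟨i, j, hij, by linarith, by linarith⟩
    · show -a k < 0
      linarith

end

end Pool.Agent.RieszF
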