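import Pool.Agent.RieszF.S5Key

set_option autoImplicit false

open Real Finset

namespace Pool.Agent.RieszF

open Pool.Agent.RieszSmall (En)

section

variable {V : Type*} [NormedAddCommGroup V] [InnerProductSpace ℝ V]

/-- Square pyramid with parameter `z` (labelled): base `x 0, x 2, x 1, x 3` (in cyclic order; the
opposite pairs are `{0,1}` and `{2,3}`), apex `x 4`. -/
structure Pyr (z : ℝ) (x : Fin 5 → V) : Prop where
  unit : ∀ i, ‖x i‖ = 1
  opp01 : inner ℝ (x 0) (x 1) = 2 * z ^ 2 - 1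
  opp23 : inner ℝ (x 2) (x 3) = 2 * z ^ 2 - 1
  adj02 : inner ℝ (x 0) (x 2) = z ^ 2
  adj03 : inner ℝ (x 0) (x 3) = z ^ 2
  adj12 : inner ℝ (x 1) (x 2) = z ^ 2
  adj13 : inner ℝ (x 1) (x 3) = z ^ 2
  ap0 : inner ℝ (x 0) (x 4) = -z
  ap1 : inner ℝ (x 1) (x 4) = -z
  ap2 : inner ℝ (x 2) (x 4) = -z
  ap3 : inner ℝ (x 3) (x 4) = -z

/-- half the energy of a pyramid. -/
noncomputable def ph (q z : ℝ) : ℝ :=
  2 * (2 - 2 * z ^ 2) ^ (-q) + 4 * (1 + z) ^ (-q) + 4 * (1 - z ^ 2) ^ (-q)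

theorem Pyr.energy {q z : ℝ} {x : Fin 5 → V} (h : Pyr z x) : En q x = 2 * ph q z := by
  have e1 : (1 : ℝ) - (2 * z ^ 2 - 1) = 2 - 2 * z ^ 2 := by ring
  have e2 : (1 : ℝ) - -z = 1 + z := by ring
  have h10 : inner ℝ (x 1) (x 0) = 2 * z ^ 2 - 1 := by rw [real_inner_comm]; exact h.opp01
  have h32 : inner ℝ (x 3) (x 2) = 2 * z ^ 2 - 1 := by rw [real_inner_comm]; exact h.opp23
  have h20 : inner ℝ (x 2) (x 0) = z ^ 2 := by rw [real_inner_comm]; exact h.adj02
  have h30 : inner ℝ (x 3) (x 0) = z ^ 2 := by rw [real_inner_comm]; exact h.adj03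
  have h21 : inner ℝ (x 2) (x 1) = z ^ 2 := by rw [real_inner_comm]; exact h.adj12
  have h31 : inner ℝ (x 3) (x 1) = z ^ 2 := by rw [real_inner_comm]; exact h.adj13
  have h40 : inner ℝ (x 4) (x 0) = -z := by rw [real_inner_comm]; exact h.ap0
  have h41 : inner ℝ (x 4) (x 1) = -z := by rw [real_inner_comm]; exact h.ap1
  have h42 : inner ℝ (x 4) (x 2) = -z := by rw [real_inner_comm]; exact h.ap2
  have h43 : inner ℝ (x 4) (x 3) = -z := by rw [real_inner_comm]; exact h.ap3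
  unfold En ph
  simp only [Fin.sum_univ_five]
  simp only [if_true, if_neg (by decide : ¬ (0 : Fin 5) = 1), if_neg (by decide : ¬ (0 : Fin 5) = 2),
    if_neg (by decide : ¬ (0 : Fin 5) = 3), if_neg (by decide : ¬ (0 : Fin 5) = 4),
    if_neg (by decide : ¬ (1 : Fin 5) = 0), if_neg (by decide : ¬ (1 : Fin 5) = 2),
    if_neg (by decide : ¬ (1 : Fin 5) = 3), if_neg (by decide : ¬ (1 : Fin 5) = 4),
    if_neg (by decide : ¬ (2 : Fin 5) = 0), if_neg (by decide : ¬ (2 : Fin 5) = 1),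
    if_neg (by decide : ¬ (2 : Fin 5) = 3), if_neg (by decide : ¬ (2 : Fin 5) = 4),
    if_neg (by decide : ¬ (3 : Fin 5) = 0), if_neg (by decide : ¬ (3 : Fin 5) = 1),
    if_neg (by decide : ¬ (3 : Fin 5) = 2), if_neg (by decide : ¬ (3 : Fin 5) = 4),
    if_neg (by decide : ¬ (4 : Fin 5) = 0), if_neg (by decide : ¬ (4 : Fin 5) = 1),
    if_neg (by decide : ¬ (4 : Fin 5) = 2), if_neg (by decide : ¬ (4 : Fin 5) = 3),
    h.opp01, h.opp23, h.adj02, h.adj03, h.adj12, h.adj13, h.ap0, h.ap1, h.ap2, h.ap3,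
    h10, h32, h20, h30, h21, h31, h40, h41, h42, h43, e1, e2]
  ring

theorem Pyr.conf {z : ℝ} (h0 : 0 < z) (h1 : z < 1) {x : Fin 5 → V} (h : Pyr z x) : Conf x := by
  have h2 : z ^ 2 < 1 := by nlinarith
  have l1 : (2 * z ^ 2 - 1 : ℝ) < 1 := by linarith
  have l2 : -z < 1 := by linarith
  have h10 : inner ℝ (x 1) (x 0) = 2 * z ^ 2 - 1 := by rw [real_inner_comm]; exact h.opp01
  have h32 : inner ℝ (x 3) (x 2) = 2 * z ^ 2 - 1 := by rw [real_inner_comm]; exact h.opp23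
  have h20 : inner ℝ (x 2) (x 0) = z ^ 2 := by rw [real_inner_comm]; exact h.adj02
  have h30 : inner ℝ (x 3) (x 0) = z ^ 2 := by rw [real_inner_comm]; exact h.adj03
  have h21 : inner ℝ (x 2) (x 1) = z ^ 2 := by rw [real_inner_comm]; exact h.adj12
  have h31 : inner ℝ (x 3) (x 1) = z ^ 2 := by rw [real_inner_comm]; exact h.adj13
  have h40 : inner ℝ (x 4) (x 0) = -z := by rw [real_inner_comm]; exact h.ap0
  have h41 : inner ℝ (x 4) (x 1) = -z := by rw [real_inner_comm]; exact h.ap1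
  have h42 : inner ℝ (x 4) (x 2) = -z := by rw [real_inner_comm]; exact h.ap2
  have h43 : inner ℝ (x 4) (x 3) = -z := by rw [real_inner_comm]; exact h.ap3
  refine conf_of_inner h.unit ?_
  intro i j hij
  fin_cases i <;> fin_cases j <;> first
    | exact absurd rfl hij
    | exact lt_of_eq_of_lt h.opp01 l1
    | exact lt_of_eq_of_lt h.opp23 l1
    | exact lt_of_eq_of_lt h10 l1
    | exact lt_of_eq_of_lt h32 l1
    | exact lt_of_eq_of_lt h.adj02 h2
    | exact lt_of_eq_of_lt h.adj03 h2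
    | exact lt_of_eq_of_lt h.adj12 h2
    | exact lt_of_eq_of_lt h.adj13 h2
    | exact lt_of_eq_of_lt h20 h2
    | exact lt_of_eq_of_lt h30 h2
    | exact lt_of_eq_of_lt h21 h2
    | exact lt_of_eq_of_lt h31 h2
    | exact lt_of_eq_of_lt h.ap0 l2
    | exact lt_of_eq_of_lt h.ap1 l2
    | exact lt_of_eq_of_lt h.ap2 l2
    | exact lt_of_eq_of_lt h.ap3 l2
    | exact lt_of_eq_of_lt h40 l2
    | exact lt_of_eq_of_lt h41 l2
    | exact lt_of_eq_of_lt h42 l2
    | exact lt_of_eq_of_lt h43 l2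

/-- pyramids exist in `ℝ³`. -/
theorem exists_pyr {z : ℝ} (h0 : 0 < z) (h1 : z < 1) :
    ∃ x : Fin 5 → EuclideanSpace ℝ (Fin 3), Pyr z x := by
  set r := Real.sqrt (1 - z ^ 2) with hr
  have hr2 : r * r = 1 - z ^ 2 := Real.mul_self_sqrt (by nlinarith)
  have hn : ∀ p q s : ℝ, p * p + q * q + s * s = 1 →
      ‖(!₂[p, q, s] : EuclideanSpace ℝ (Fin 3))‖ = 1 := by
    intro p q s h
    rw [EuclideanSpace.norm_eq, Real.sqrt_eq_one, Fin.sum_univ_three]
    simp only [Real.norm_eq_abs, sq_abs]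
    simp
    linarith [h, sq p, sq q, sq s]
  have hi : ∀ p q s p' q' s' : ℝ,
      inner ℝ (!₂[p, q, s] : EuclideanSpace ℝ (Fin 3)) (!₂[p', q', s']) =
        p * p' + q * q' + s * s' := by
    intro p q s p' q' s'
    simp [PiLp.inner_apply, Fin.sum_univ_three]
    ring
  refine ⟨![!₂[r, 0, z], !₂[-r, 0, z], !₂[0, r, z], !₂[0, -r, z], !₂[0, 0, -1]], ?_⟩
  constructor
  · intro i
    fin_cases i
    · exact hn _ _ _ (by nlinarith)
    · exact hn _ _ _ (by nlinarith)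
    · exact hn _ _ _ (by nlinarith)
    · exact hn _ _ _ (by nlinarith)
    · exact hn _ _ _ (by norm_num)
  · exact (hi _ _ _ _ _ _).trans (by nlinarith)
  · exact (hi _ _ _ _ _ _).trans (by nlinarith)
  · exact (hi _ _ _ _ _ _).trans (by ring)
  · exact (hi _ _ _ _ _ _).trans (by ring)
  · exact (hi _ _ _ _ _ _).trans (by ring)
  · exact (hi _ _ _ _ _ _).trans (by ring)
  · exact (hi _ _ _ _ _ _).trans (by ring)
  · exact (hi _ _ _ _ _ _).trans (by ring)
  · exact (hi _ _ _ _ _ _).trans (by ring)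
  · exact (hi _ _ _ _ _ _).trans (by ring)

/-- C1.  Two positive, two negative coefficients and a zero.
Proof: `key` twice (for `a` and `-a`): `a_0 = a_1 = -a_2 = -a_3` (sum zero), `b_0 = b_1`,
`b_2 = b_3`; `sum_a` at `0` and at `2`: `D_01 = 2 D_02 = D_23`, so `K_01 = K_23`, `b_0 = b_2`.
`x_0+x_1 = x_2+x_3`, `b_0 (x_0+..+x_3) + b_4 x_4 = 0`: pyramid with `z = b_4/(4 b_0)`,
and then `K_04 = b_0 b_4`, `K_02 = b_0² + a_0²`, `K_01 = b_0² - a_0²` give the equation. -/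
theorem Splitting.pyr {q : ℝ} (hq : 0 < q) {x : Fin 5 → V} (hx : Conf x) {a b : Fin 5 → ℝ}
    (h : Splitting q x a b) (h0 : 0 < a 0) (h1 : 0 < a 1) (h2 : a 2 < 0) (h3 : a 3 < 0)
    (h4 : a 4 = 0) :
    ∃ z : ℝ, 0 < z ∧ z < 1 ∧ (1 - z) ^ (q + 1) = 2 * z * (1 + 2 ^ (-(q + 1))) ∧ Pyr z x := by
  obtain ⟨ha01, hb01⟩ := h.key hq hx (i := 0) (j := 1) (by decide) h0 h1 (by
    intro k hk0 hk1
    fin_cases k
    · exact absurd rfl hk0
    · exact absurd rfl hk1
    · exact h2.le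
    · exact h3.le
    · exact h4.le)
  obtain ⟨ha23', hb23⟩ := h.neg.key hq hx (i := 2) (j := 3) (by decide) (neg_pos.2 h2)
    (neg_pos.2 h3) (by
    intro k hk0 hk1
    fin_cases k
    · exact neg_nonpos.2 h0.le
    · exact neg_nonpos.2 h1.le
    · exact absurd rfl hk0
    · exact absurd rfl hk1
    · exact neg_nonpos.2 h4.ge)
  have ha23 : a 2 = a 3 := neg_inj.1 ha23'
  have hs := h.asum
  rw [Fin.sum_univ_five] at hs
  have ha2 : a 2 = -a 0 := by linarith
  have ha3 : a 3 = -a 0 := by linarith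
  have ha1 : a 1 = a 0 := ha01.symm
  -- inner products
  have m02 := h.mirror hq hx ha01 hb01 2 (by decide) (by decide)
  have m03 := h.mirror hq hx ha01 hb01 3 (by decide) (by decide)
  have m04 := h.mirror hq hx ha01 hb01 4 (by decide) (by decide)
  have m20 := h.mirror hq hx ha23 hb23 0 (by decide) (by decide)
  have m21 := h.mirror hq hx ha23 hb23 1 (by decide) (by decide)
  have m24 := h.mirror hq hx ha23 hb23 4 (by decide) (by decide)
  rw [real_inner_comm (x 0) (x 2), real_inner_comm (x 0) (x 3)] at m20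
  rw [real_inner_comm (x 1) (x 2), real_inner_comm (x 1) (x 3)] at m21
  have u0 := hx.inner_self 0
  have u1 := hx.inner_self 1
  have u2 := hx.inner_self 2
  have u3 := hx.inner_self 3
  have u4 := hx.inner_self 4
  have s0 := h.sum_a 0
  have s2 := h.sum_a 2
  rw [Fin.sum_univ_five, u0, ha1, ha2, ha3, h4] at s0
  rw [Fin.sum_univ_five, u2, ha1, ha2, ha3, h4, real_inner_comm (x 0) (x 2),
    real_inner_comm (x 1) (x 2)] at s2
  have a0 : a 0 ≠ 0 := h0.ne'
  have D01 : 1 - inner ℝ (x 0) (x 1) = 2 * (1 - inner ℝ (x 0) (x 2)) := by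
    apply mul_left_cancel₀ a0
    rw [← m20] at s0
    linarith
  have D23 : 1 - inner ℝ (x 2) (x 3) = 2 * (1 - inner ℝ (x 0) (x 2)) := by
    apply mul_left_cancel₀ a0
    rw [← m02] at s2
    linarith
  have K01 := h.K 0 1 (by decide)
  have K23 := h.K 2 3 (by decide)
  have K02 := h.K 0 2 (by decide)
  have K04 := h.K 0 4 (by decide)
  rw [D01, ha1, ← hb01] at K01
  rw [D23, ha2, ha3, ← hb23] at K23
  have bp0 := h.bpos 0
  have bp2 := h.bpos 2
  have bp4 := h.bpos 4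
  have hb02 : b 2 = b 0 := by
    have e : b 2 * b 2 = b 0 * b 0 := by linarith
    nlinarith
  rw [ha2, hb02] at K02
  rw [h4] at K04
  have hb1 : b 1 = b 0 := hb01.symm
  have hb3 : b 3 = b 0 := by rw [← hb23, hb02]
  set z := b 4 / (4 * b 0) with hz
  have hz0 : 0 < z := by positivity
  have hb4 : b 4 = 4 * z * b 0 := by
    rw [hz]; field_simp
  have hax := h.ax
  rw [Fin.sum_univ_five, ha1, ha2, ha3, h4] at hax
  have hbx := h.bx
  rw [Fin.sum_univ_five, hb1, hb02, hb3, hb4] at hbx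
  have v1 : x 0 + x 1 - x 2 - x 3 = 0 := by
    have e : a 0 • (x 0 + x 1 - x 2 - x 3) = 0 := by
      rw [← hax]
      module
    exact (smul_eq_zero.1 e).resolve_left a0
  have v2 : x 0 + x 1 + x 2 + x 3 + (4 * z) • x 4 = 0 := by
    have e : b 0 • (x 0 + x 1 + x 2 + x 3 + (4 * z) • x 4) = 0 := by
      rw [← hbx]
      module
    exact (smul_eq_zero.1 e).resolve_left bp0.ne'
  have w1 : x 0 + x 1 + (2 * z) • x 4 = 0 := by
    have e : (2 : ℝ) • (x 0 + x 1 + (2 * z) • x 4) =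
        (x 0 + x 1 - x 2 - x 3) + (x 0 + x 1 + x 2 + x 3 + (4 * z) • x 4) := by
      module
    rw [v1, v2, add_zero] at e
    exact (smul_eq_zero.1 e).resolve_left two_ne_zero
  have w2 : x 2 + x 3 + (2 * z) • x 4 = 0 := by
    have e : (2 : ℝ) • (x 2 + x 3 + (2 * z) • x 4) =
        (x 0 + x 1 + x 2 + x 3 + (4 * z) • x 4) - (x 0 + x 1 - x 2 - x 3) := by
      module
    rw [v1, v2, sub_zero] at e
    exact (smul_eq_zero.1 e).resolve_left two_ne_zero
  have i1 : inner ℝ (x 0 + x 1 + (2 * z) • x 4) (x 4) = (0 : ℝ) := by rw [w1, inner_zero_left]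
  have i2 : inner ℝ (x 2 + x 3 + (2 * z) • x 4) (x 4) = (0 : ℝ) := by rw [w2, inner_zero_left]
  have i3 : inner ℝ (x 0) (x 0 + x 1 + (2 * z) • x 4) = (0 : ℝ) := by rw [w1, inner_zero_right]
  rw [inner_add_left, inner_add_left, inner_smul_left, u4] at i1 i2
  rw [inner_add_right, inner_add_right, inner_smul_right, u0] at i3
  simp only [conj_trivial, mul_one] at i1 i2
  have g04 : inner ℝ (x 0) (x 4) = -z := by linarith
  have g14 : inner ℝ (x 1) (x 4) = -z := by linarith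
  have g24 : inner ℝ (x 2) (x 4) = -z := by linarith
  have g34 : inner ℝ (x 3) (x 4) = -z := by linarith
  have g01 : inner ℝ (x 0) (x 1) = 2 * z ^ 2 - 1 := by
    rw [g04] at i3
    linarith
  have g02 : inner ℝ (x 0) (x 2) = z ^ 2 := by linarith
  have g03 : inner ℝ (x 0) (x 3) = z ^ 2 := by linarith
  have g12 : inner ℝ (x 1) (x 2) = z ^ 2 := by linarith
  have g13 : inner ℝ (x 1) (x 3) = z ^ 2 := by linarith
  have g23 : inner ℝ (x 2) (x 3) = 2 * z ^ 2 - 1 := by linarith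
  have hz1 : z < 1 := by
    have := hx.dd_pos (i := 0) (j := 2) (by decide)
    rw [g02] at this
    nlinarith
  refine ⟨z, hz0, hz1, ?_, ⟨hx.unit, g01, g23, g02, g03, g12, g13, g04, g14, g24, g34⟩⟩
  rw [g02] at K01 K02
  rw [g04] at K04
  have q1 : 0 < 1 - z := by linarith
  have q2 : 0 < 1 + z := by linarith
  have q3 : 0 < 1 - z ^ 2 := by nlinarith
  have e3 : (1 - z ^ 2) = (1 - z) * (1 + z) := by ring
  have e4 : (1 - -z) = 1 + z := by ring
  rw [Real.mul_rpow (by norm_num) q3.le] at K01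
  rw [e4] at K04
  set P := (1 - z ^ 2) ^ (-(q + 1)) with hP
  set T := (2 : ℝ) ^ (-(q + 1)) with hT
  have hPn : P * (1 - z ^ 2) ^ (q + 1) = 1 := by
    rw [hP, ← Real.rpow_add q3, neg_add_cancel, Real.rpow_zero]
  have hQn : (1 + z) ^ (-(q + 1)) * (1 + z) ^ (q + 1) = 1 := by
    rw [← Real.rpow_add q2, neg_add_cancel, Real.rpow_zero]
  have hsplit : (1 - z ^ 2) ^ (q + 1) = (1 - z) ^ (q + 1) * (1 + z) ^ (q + 1) := by
    rw [e3, Real.mul_rpow q1.le q2.le]
  -- `(1+z)^(-p) = 2 z P (1 + T)`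
  have hmain : (1 + z) ^ (-(q + 1)) = 2 * z * (P * (1 + T)) := by
    rw [K04, hb4]
    have : P * (1 + T) = 2 * (b 0 * b 0) := by linarith
    rw [this]
    ring
  calc (1 - z) ^ (q + 1) = (1 + z) ^ (-(q + 1)) * ((1 - z) ^ (q + 1) * (1 + z) ^ (q + 1)) := by
        rw [mul_comm ((1 - z) ^ (q + 1)), ← mul_assoc, hQn, one_mul]
    _ = 2 * z * (1 + T) * (P * (1 - z ^ 2) ^ (q + 1)) := by
        rw [← hsplit, hmain]
        ring
    _ = 2 * z * (1 + T) := by rw [hPn, mul_one]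

end

end Pool.Agent.RieszF
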