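import Pool.Agent.RieszF.S5Key

set_option autoImplicit false

open Real Finset

namespace Pool.Agent.RieszF

open Pool.Agent.RieszSmall (En)

/-- Admissible data. -/
structure Adm (z1 z2 v2 g s : ℝ) : Prop where
  h1 : 0 ≤ z1
  h12 : z1 < z2
  h2 : z2 < 1
  hg : 0 ≤ g
  hgs : g ^ 2 + s ^ 2 = 1
  hv : |v2| * z2 ≤ z1 * √(1 - z2 ^ 2)
  hs : |s| * z2 ≤ g * √(1 - z2 ^ 2)

/-- The energy in the coordinates of part C2. -/
noncomputable def FF (q z1 z2 v2 g s : ℝ) : ℝ :=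
  2 * (2 - 2 * z1 ^ 2 - 2 * v2 ^ 2) ^ (-q)
  + 4 * ((1 - z1 * z2 - √(1 - z2 ^ 2) * v2) ^ (-q) + (1 - z1 * z2 + √(1 - z2 ^ 2) * v2) ^ (-q)
      + (1 + z1 * g - v2 * s) ^ (-q))
  + 2 * ((2 - 2 * z2 ^ 2) ^ (-q) + (1 + z2 * g - √(1 - z2 ^ 2) * s) ^ (-q)
      + (1 + z2 * g + √(1 - z2 ^ 2) * s) ^ (-q))

section

variable {V : Type*} [NormedAddCommGroup V] [InnerProductSpace ℝ V]

/-- C2, coordinates.  `v = (x_0+x_1)/2 = ∑_{j≥2} β_j x_j` is a nonnegative combination of `x_2`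
and `x_3` (after relabelling: `4` is an index with the least `β_j/π_j`), `∑ c < 1`, and
`x_4` is a negative combination of `x_2, x_3`. -/
theorem adm_of_cone {q : ℝ} {x : Fin 5 → V} (hx : Conf x)
    (hm : ∀ j, 2 ≤ j → inner ℝ (x 0) (x j) = (inner ℝ (x 1) (x j) : ℝ))
    {c2 c3 p2 p3 : ℝ} (hc2 : 0 ≤ c2) (hc3 : 0 ≤ c3) (hc : c2 + c3 < 1) (hp2 : 0 < p2)
    (hp3 : 0 < p3) (hv : (1 / 2 : ℝ) • (x 0 + x 1) = c2 • x 2 + c3 • x 3)
    (hw : x 4 = -(p2 • x 2 + p3 • x 3)) :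
    ∃ z1 z2 v2 g s : ℝ, Adm z1 z2 v2 g s ∧ En q x = FF q z1 z2 v2 g s := by
  have hG1 : inner ℝ (x 2) (x 3) < (1 : ℝ) := hx.inner_lt (by decide)
  have u2 := hx.inner_self 2
  have u3 := hx.inner_self 3
  have u4 := hx.inner_self 4
  set G : ℝ := inner ℝ (x 2) (x 3) with hG
  have sy32 : inner ℝ (x 3) (x 2) = G := by rw [real_inner_comm]
  -- `G > -1`
  have hG2 : -1 < G := by
    by_contra hcon
    have hn : ‖x 2 + x 3‖ ^ 2 = 2 + 2 * G := by
      rw [norm_add_sq_real, hx.unit, hx.unit, ← hG]; ring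
    have h0 : ‖x 2 + x 3‖ ^ 2 = 0 := by
      have := sq_nonneg ‖x 2 + x 3‖
      linarith
    have h1 : x 2 + x 3 = 0 := by
      rw [← norm_eq_zero]
      exact pow_eq_zero_iff (two_ne_zero) |>.1 h0
    have h2 : x 3 = -x 2 := by
      rw [eq_neg_iff_add_eq_zero, add_comm]; exact h1
    have h3 : x 4 = (p3 - p2) • x 2 := by
      rw [hw, h2]; module
    have h4 : (p3 - p2) ^ 2 = 1 := by
      have := u4
      rw [h3, real_inner_smul_left, real_inner_smul_right, u2] at this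
      nlinarith
    have h5 : (p3 - p2 - 1) * (p3 - p2 + 1) = 0 := by linarith
    rcases mul_eq_zero.1 h5 with h6 | h6
    · have h7 : x 4 = x 2 := by rw [h3, show p3 - p2 = 1 by linarith, one_smul]
      exact absurd (hx.inj h7) (by decide)
    · have h7 : x 4 = x 3 := by rw [h3, h2, show p3 - p2 = -1 by linarith, neg_one_smul]
      exact absurd (hx.inj h7) (by decide)
  set z2 : ℝ := √((1 + G) / 2) with hz2
  have hz2s : z2 ^ 2 = (1 + G) / 2 := Real.sq_sqrt (by linarith)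
  have hz2p : 0 < z2 := Real.sqrt_pos.2 (by linarith)
  have hz21 : z2 < 1 := by nlinarith
  set r : ℝ := √(1 - z2 ^ 2) with hr
  have hrs : r ^ 2 = (1 - G) / 2 := by
    rw [hr, Real.sq_sqrt (by rw [hz2s]; linarith), hz2s]; ring
  have hr0 : 0 ≤ r := Real.sqrt_nonneg _
  -- inner products
  have i42 : inner ℝ (x 4) (x 2) = -(p2 + p3 * G) := by
    rw [hw, inner_neg_left, inner_add_left, real_inner_smul_left, real_inner_smul_left, u2, sy32]
    ring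
  have i43 : inner ℝ (x 4) (x 3) = -(p2 * G + p3) := by
    rw [hw, inner_neg_left, inner_add_left, real_inner_smul_left, real_inner_smul_left, u3, ← hG]
    ring
  have i44 : p2 ^ 2 + p3 ^ 2 + 2 * p2 * p3 * G = 1 := by
    have h : inner ℝ (x 4) (-(p2 • x 2 + p3 • x 3)) = (1 : ℝ) := by rw [← hw, u4]
    rw [inner_neg_right, inner_add_right, real_inner_smul_right, real_inner_smul_right, i42,
      i43] at h
    linarith
  have hvj : ∀ j, 2 ≤ j → inner ℝ (x 0) (x j) = c2 * inner ℝ (x 2) (x j) +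
      (c3 * inner ℝ (x 3) (x j) : ℝ) := by
    intro j hj
    have h : inner ℝ ((1 / 2 : ℝ) • (x 0 + x 1)) (x j) = (inner ℝ (c2 • x 2 + c3 • x 3) (x j) : ℝ) := by
      rw [hv]
    rw [real_inner_smul_left, inner_add_left, inner_add_left, real_inner_smul_left,
      real_inner_smul_left, ← hm j hj] at h
    linarith
  have i02 : inner ℝ (x 0) (x 2) = c2 + c3 * G := by
    rw [hvj 2 (by decide), u2, sy32]; ring
  have i03 : inner ℝ (x 0) (x 3) = c2 * G + c3 := by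
    rw [hvj 3 (by decide), u3, ← hG]; ring
  have i04 : inner ℝ (x 0) (x 4) = -(c2 * (p2 + p3 * G) + c3 * (p2 * G + p3)) := by
    rw [hvj 4 (by decide), real_inner_comm (x 4) (x 2), real_inner_comm (x 4) (x 3), i42, i43]
    ring
  have i12 : inner ℝ (x 1) (x 2) = c2 + c3 * G := by rw [← hm 2 (by decide), i02]
  have i13 : inner ℝ (x 1) (x 3) = c2 * G + c3 := by rw [← hm 3 (by decide), i03]
  have i14 : inner ℝ (x 1) (x 4) = -(c2 * (p2 + p3 * G) + c3 * (p2 * G + p3)) := by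
    rw [← hm 4 (by decide), i04]
  have i01 : inner ℝ (x 0) (x 1) = 2 * (c2 ^ 2 + c3 ^ 2 + 2 * c2 * c3 * G) - 1 := by
    have h : inner ℝ (x 0) ((1 / 2 : ℝ) • (x 0 + x 1)) =
        (inner ℝ (x 0) (c2 • x 2 + c3 • x 3) : ℝ) := by rw [hv]
    rw [real_inner_smul_right, inner_add_right, inner_add_right, real_inner_smul_right,
      real_inner_smul_right, hx.inner_self, i02, i03] at h
    linarith
  refine ⟨(c2 + c3) * z2, z2, (c2 - c3) * r, (p2 + p3) * z2, -((p2 - p3) * r),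
    ⟨by positivity, by nlinarith, hz21, by positivity, ?_, ?_, ?_⟩, ?_⟩
  · have : ((p2 + p3) * z2) ^ 2 + (-((p2 - p3) * r)) ^ 2 =
        (p2 + p3) ^ 2 * z2 ^ 2 + (p2 - p3) ^ 2 * r ^ 2 := by ring
    rw [this, hz2s, hrs]
    linarith
  · rw [← hr, abs_mul, abs_of_nonneg hr0]
    have h : |c2 - c3| ≤ c2 + c3 := by
      rw [abs_le]; constructor <;> linarith
    have := mul_le_mul_of_nonneg_right h (mul_nonneg hr0 hz2p.le)
    linarith
  · rw [← hr, abs_neg, abs_mul, abs_of_nonneg hr0]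
    have h : |p2 - p3| ≤ p2 + p3 := by
      rw [abs_le]; constructor <;> linarith
    have := mul_le_mul_of_nonneg_right h (mul_nonneg hr0 hz2p.le)
    linarith
  · have e0 : En q x = 2 * (1 - inner ℝ (x 0) (x 1)) ^ (-q) +
        2 * ((1 - inner ℝ (x 0) (x 2)) ^ (-q) + (1 - inner ℝ (x 1) (x 2)) ^ (-q)) +
        2 * ((1 - inner ℝ (x 0) (x 3)) ^ (-q) + (1 - inner ℝ (x 1) (x 3)) ^ (-q)) +
        2 * ((1 - inner ℝ (x 0) (x 4)) ^ (-q) + (1 - inner ℝ (x 1) (x 4)) ^ (-q)) +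
        2 * ((1 - inner ℝ (x 2) (x 3)) ^ (-q) + (1 - inner ℝ (x 4) (x 2)) ^ (-q) +
          (1 - inner ℝ (x 4) (x 3)) ^ (-q)) := by
      have sy : ∀ i j : Fin 5, inner ℝ (x i) (x j) = (inner ℝ (x j) (x i) : ℝ) :=
        fun i j => real_inner_comm _ _
      unfold En
      simp only [Fin.sum_univ_five]
      simp only [show (0 : Fin 5) ≠ 1 by decide, show (0 : Fin 5) ≠ 2 by decide,
        show (0 : Fin 5) ≠ 3 by decide, show (0 : Fin 5) ≠ 4 by decide,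
        show (1 : Fin 5) ≠ 0 by decide, show (1 : Fin 5) ≠ 2 by decide,
        show (1 : Fin 5) ≠ 3 by decide, show (1 : Fin 5) ≠ 4 by decide,
        show (2 : Fin 5) ≠ 0 by decide, show (2 : Fin 5) ≠ 1 by decide,
        show (2 : Fin 5) ≠ 3 by decide, show (2 : Fin 5) ≠ 4 by decide,
        show (3 : Fin 5) ≠ 0 by decide, show (3 : Fin 5) ≠ 1 by decide,
        show (3 : Fin 5) ≠ 2 by decide, show (3 : Fin 5) ≠ 4 by decide,
        show (4 : Fin 5) ≠ 0 by decide, show (4 : Fin 5) ≠ 1 by decide,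
        show (4 : Fin 5) ≠ 2 by decide, show (4 : Fin 5) ≠ 3 by decide, if_false, if_true]
      rw [sy 1 0, sy 2 0, sy 3 0, sy 4 0, sy 2 1, sy 3 1, sy 4 1, sy 3 2, sy 2 4, sy 3 4]
      ring
    rw [e0, i01, i02, i03, i04, i12, i13, i14, ← hG, i42, i43]
    unfold FF
    rw [← hr]
    have f1 : 1 - (2 * (c2 ^ 2 + c3 ^ 2 + 2 * c2 * c3 * G) - 1) =
        2 - 2 * ((c2 + c3) * z2) ^ 2 - 2 * ((c2 - c3) * r) ^ 2 := by
      rw [mul_pow, mul_pow, hz2s, hrs]; ring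
    have f2 : 1 - (c2 + c3 * G) = 1 - (c2 + c3) * z2 * z2 - r * ((c2 - c3) * r) := by
      rw [show (c2 + c3) * z2 * z2 = (c2 + c3) * z2 ^ 2 by ring,
        show r * ((c2 - c3) * r) = (c2 - c3) * r ^ 2 by ring, hz2s, hrs]; ring
    have f3 : 1 - (c2 * G + c3) = 1 - (c2 + c3) * z2 * z2 + r * ((c2 - c3) * r) := by
      rw [show (c2 + c3) * z2 * z2 = (c2 + c3) * z2 ^ 2 by ring,
        show r * ((c2 - c3) * r) = (c2 - c3) * r ^ 2 by ring, hz2s, hrs]; ring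
    have f4 : 1 - -(c2 * (p2 + p3 * G) + c3 * (p2 * G + p3)) =
        1 + (c2 + c3) * z2 * ((p2 + p3) * z2) - (c2 - c3) * r * -((p2 - p3) * r) := by
      rw [show (c2 + c3) * z2 * ((p2 + p3) * z2) = (c2 + c3) * (p2 + p3) * z2 ^ 2 by ring,
        show (c2 - c3) * r * -((p2 - p3) * r) = -((c2 - c3) * (p2 - p3) * r ^ 2) by ring,
        hz2s, hrs]; ring
    have f5 : 1 - G = 2 - 2 * z2 ^ 2 := by rw [hz2s]; ring
    have f6 : 1 - -(p2 + p3 * G) = 1 + z2 * ((p2 + p3) * z2) - r * -((p2 - p3) * r) := by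
      rw [show z2 * ((p2 + p3) * z2) = (p2 + p3) * z2 ^ 2 by ring,
        show r * -((p2 - p3) * r) = -((p2 - p3) * r ^ 2) by ring, hz2s, hrs]; ring
    have f7 : 1 - -(p2 * G + p3) = 1 + z2 * ((p2 + p3) * z2) + r * -((p2 - p3) * r) := by
      rw [show z2 * ((p2 + p3) * z2) = (p2 + p3) * z2 ^ 2 by ring,
        show r * -((p2 - p3) * r) = -((p2 - p3) * r ^ 2) by ring, hz2s, hrs]; ring
    rw [f1, f2, f3, f4, f5, f6, f7]
    ring

/-- C2 with the least quotient at the index `4`. -/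
theorem S7Coord_aux {q : ℝ} {x : Fin 5 → V} (hx : Conf x)
    (hm : ∀ j, 2 ≤ j → inner ℝ (x 0) (x j) = (inner ℝ (x 1) (x j) : ℝ))
    {β2 β3 β4 π2 π3 π4 : ℝ} (hβ2 : 0 < β2) (hβ3 : 0 < β3) (hβ4 : 0 < β4) (hπ2 : 0 < π2)
    (hπ3 : 0 < π3) (hπ4 : 0 < π4) (hβ : β2 + β3 + β4 = 1)
    (hv : (1 / 2 : ℝ) • (x 0 + x 1) = β2 • x 2 + β3 • x 3 + β4 • x 4)
    (h0 : π2 • x 2 + π3 • x 3 + π4 • x 4 = 0) (m2 : β4 / π4 ≤ β2 / π2) (m3 : β4 / π4 ≤ β3 / π3) :
    ∃ z1 z2 v2 g s : ℝ, Adm z1 z2 v2 g s ∧ En q x = FF q z1 z2 v2 g s := by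
  have ht : 0 < β4 / π4 := div_pos hβ4 hπ4
  have ht4 : β4 - β4 / π4 * π4 = 0 := by field_simp; ring
  have hc2 : 0 ≤ β2 - β4 / π4 * π2 := by
    have := (le_div_iff₀ hπ2).1 m2
    linarith
  have hc3 : 0 ≤ β3 - β4 / π4 * π3 := by
    have := (le_div_iff₀ hπ3).1 m3
    linarith
  refine adm_of_cone hx hm hc2 hc3 ?_ (div_pos hπ2 hπ4) (div_pos hπ3 hπ4) ?_ ?_
  · have h1 : 0 < β4 / π4 * π2 := mul_pos ht hπ2
    have h2 : 0 < β4 / π4 * π3 := mul_pos ht hπ3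
    linarith
  · rw [hv]
    have h1 : (β2 - β4 / π4 * π2) • x 2 + (β3 - β4 / π4 * π3) • x 3 =
        β2 • x 2 + β3 • x 3 + β4 • x 4 - (β4 / π4) • (π2 • x 2 + π3 • x 3 + π4 • x 4) -
          (β4 - β4 / π4 * π4) • x 4 := by module
    rw [h1, h0, ht4, smul_zero, zero_smul, sub_zero, sub_zero]
  · have h1 : x 4 = (1 / π4) • (π2 • x 2 + π3 • x 3 + π4 • x 4) -
        ((π2 / π4) • x 2 + (π3 / π4) • x 3) := by
      have h2 : (1 / π4) • (π2 • x 2 + π3 • x 3 + π4 • x 4) =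
          (π2 / π4) • x 2 + (π3 / π4) • x 3 + x 4 := by
        rw [smul_add, smul_add, smul_smul, smul_smul, smul_smul,
          show 1 / π4 * π4 = 1 by field_simp, one_smul,
          show 1 / π4 * π2 = π2 / π4 by ring, show 1 / π4 * π3 = π3 / π4 by ring]
      rw [h2]; abel
    rw [h0, smul_zero, zero_sub] at h1
    exact h1

/-- C2.  Two positive and three negative coefficients. -/
theorem Splitting.adm {q : ℝ} (hq : 0 < q) {x : Fin 5 → V} (hx : Conf x) {a b : Fin 5 → ℝ}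
    (h : Splitting q x a b) (h0 : 0 < a 0) (h1 : 0 < a 1) (h2 : a 2 < 0) (h3 : a 3 < 0)
    (h4 : a 4 < 0) :
    ∃ z1 z2 v2 g s : ℝ, Adm z1 z2 v2 g s ∧ En q x = FF q z1 z2 v2 g s := by
  have hrest : ∀ k, k ≠ 0 → k ≠ 1 → a k ≤ 0 := by
    intro k hk0 hk1
    fin_cases k
    · exact absurd rfl hk0
    · exact absurd rfl hk1
    · exact h2.le
    · exact h3.le
    · exact h4.le
  obtain ⟨ha, hb⟩ := h.key hq hx (by decide : (0 : Fin 5) ≠ 1) h0 h1 hrest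
  have hmir : ∀ k, k ≠ 0 → k ≠ 1 → inner ℝ (x 0) (x k) = (inner ℝ (x 1) (x k) : ℝ) :=
    fun k hk0 hk1 => h.mirror hq hx ha hb k hk0 hk1
  have hasum := h.asum
  have hax := h.ax
  have hbx := h.bx
  rw [Fin.sum_univ_five] at hasum hax hbx
  have b0 := h.bpos 0
  have b2 := h.bpos 2
  have b3 := h.bpos 3
  have b4 := h.bpos 4
  obtain ⟨A, hA, hAa⟩ : ∃ A, 0 < A ∧ A * (2 * a 0) = 1 :=
    ⟨1 / (2 * a 0), by positivity, by field_simp⟩
  have hAa1 : A * (2 * a 1) = 1 := by rw [← ha]; exact hAa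
  -- the coefficients
  have hβ2 : 0 < -(A * a 2) := by nlinarith
  have hβ3 : 0 < -(A * a 3) := by nlinarith
  have hβ4 : 0 < -(A * a 4) := by nlinarith
  have hπ : ∀ k, 0 < b k → 0 < -(A * a k) → 0 < b k + 2 * b 0 * -(A * a k) := by
    intro k h1 h2
    have := mul_pos (mul_pos two_pos b0) h2
    linarith
  have hπ2 := hπ 2 b2 hβ2
  have hπ3 := hπ 3 b3 hβ3
  have hπ4 := hπ 4 b4 hβ4
  have hβ : -(A * a 2) + -(A * a 3) + -(A * a 4) = 1 := by
    have : A * (a 0 + a 1 + a 2 + a 3 + a 4) = 0 := by rw [hasum, mul_zero]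
    nlinarith
  have hv : (1 / 2 : ℝ) • (x 0 + x 1) =
      (-(A * a 2)) • x 2 + (-(A * a 3)) • x 3 + (-(A * a 4)) • x 4 := by
    have e1 : A • (a 0 • x 0 + a 1 • x 1 + a 2 • x 2 + a 3 • x 3 + a 4 • x 4) = 0 := by
      rw [hax, smul_zero]
    have e2 : (1 / 2 : ℝ) • (x 0 + x 1) =
        A • (a 0 • x 0 + a 1 • x 1 + a 2 • x 2 + a 3 • x 3 + a 4 • x 4) +
        ((-(A * a 2)) • x 2 + (-(A * a 3)) • x 3 + (-(A * a 4)) • x 4) +
        (1 / 2 - A * a 0) • x 0 + (1 / 2 - A * a 1) • x 1 := by module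
    rw [e2, e1, show 1 / 2 - A * a 0 = 0 by linarith, show 1 / 2 - A * a 1 = 0 by linarith,
      zero_smul, zero_smul, zero_add, add_zero, add_zero]
  have h0' : (b 2 + 2 * b 0 * -(A * a 2)) • x 2 + (b 3 + 2 * b 0 * -(A * a 3)) • x 3 +
      (b 4 + 2 * b 0 * -(A * a 4)) • x 4 = 0 := by
    have e1 : (b 2 + 2 * b 0 * -(A * a 2)) • x 2 + (b 3 + 2 * b 0 * -(A * a 3)) • x 3 +
        (b 4 + 2 * b 0 * -(A * a 4)) • x 4 =
        (b 0 • x 0 + b 1 • x 1 + b 2 • x 2 + b 3 • x 3 + b 4 • x 4) -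
        (2 * b 0) • ((1 / 2 : ℝ) • (x 0 + x 1) -
          ((-(A * a 2)) • x 2 + (-(A * a 3)) • x 3 + (-(A * a 4)) • x 4)) +
        (b 0 - b 1) • x 1 := by module
    rw [e1, hbx, hv, sub_self, smul_zero, sub_zero, hb, sub_self, zero_smul, add_zero]
  have hm : ∀ j : Fin 5, 2 ≤ j → inner ℝ (x 0) (x j) = (inner ℝ (x 1) (x j) : ℝ) := by
    intro j hj
    apply hmir j
    · rintro rfl; exact absurd hj (by decide)
    · rintro rfl; exact absurd hj (by decide)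
  set β2 := -(A * a 2) with hB2
  set β3 := -(A * a 3) with hB3
  set β4 := -(A * a 4) with hB4
  set π2 := b 2 + 2 * b 0 * β2 with hP2
  set π3 := b 3 + 2 * b 0 * β3 with hP3
  set π4 := b 4 + 2 * b 0 * β4 with hP4
  by_cases c1 : β4 / π4 ≤ β2 / π2 ∧ β4 / π4 ≤ β3 / π3
  · exact S7Coord_aux hx hm hβ2 hβ3 hβ4 hπ2 hπ3 hπ4 hβ hv h0' c1.1 c1.2
  · by_cases c2 : β3 / π3 ≤ β2 / π2
    · -- least at `3`
      have c3 : β3 / π3 ≤ β4 / π4 := by
        by_contra hcon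
        push Not at hcon
        exact c1 ⟨by linarith, hcon.le⟩
      rw [← En_relabel q x (Equiv.swap 3 4)]
      have e0 : (Equiv.swap (3 : Fin 5) 4) 0 = 0 := by decide
      have e1 : (Equiv.swap (3 : Fin 5) 4) 1 = 1 := by decide
      have e2 : (Equiv.swap (3 : Fin 5) 4) 2 = 2 := by decide
      have e3 : (Equiv.swap (3 : Fin 5) 4) 3 = 4 := by decide
      have e4 : (Equiv.swap (3 : Fin 5) 4) 4 = 3 := by decide
      have ej : ∀ j : Fin 5, 2 ≤ j → 2 ≤ (Equiv.swap (3 : Fin 5) 4) j := by decide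
      refine S7Coord_aux (x := fun i => x (Equiv.swap 3 4 i)) (hx.relabel _) ?_ hβ2 hβ4 hβ3
        hπ2 hπ4 hπ3 (by linarith) ?_ ?_ c2 c3
      · intro j hj
        show inner ℝ (x (Equiv.swap 3 4 0)) (x (Equiv.swap 3 4 j)) =
          (inner ℝ (x (Equiv.swap 3 4 1)) (x (Equiv.swap 3 4 j)) : ℝ)
        rw [e0, e1]
        exact hm _ (ej j hj)
      · simp only [e0, e1, e2, e3, e4]
        rw [hv]; abel
      · simp only [e2, e3, e4]
        rw [← h0']; abel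
    · -- least at `2`
      push Not at c2
      have c3 : β2 / π2 ≤ β4 / π4 := by
        by_contra hcon
        push Not at hcon
        exact c1 ⟨hcon.le, by linarith⟩
      rw [← En_relabel q x (Equiv.swap 2 4)]
      have e0 : (Equiv.swap (2 : Fin 5) 4) 0 = 0 := by decide
      have e1 : (Equiv.swap (2 : Fin 5) 4) 1 = 1 := by decide
      have e2 : (Equiv.swap (2 : Fin 5) 4) 2 = 4 := by decide
      have e3 : (Equiv.swap (2 : Fin 5) 4) 3 = 3 := by decide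
      have e4 : (Equiv.swap (2 : Fin 5) 4) 4 = 2 := by decide
      have ej : ∀ j : Fin 5, 2 ≤ j → 2 ≤ (Equiv.swap (2 : Fin 5) 4) j := by decide
      refine S7Coord_aux (x := fun i => x (Equiv.swap 2 4 i)) (hx.relabel _) ?_ hβ4 hβ3 hβ2
        hπ4 hπ3 hπ2 (by linarith) ?_ ?_ c3 c2.le
      · intro j hj
        show inner ℝ (x (Equiv.swap 2 4 0)) (x (Equiv.swap 2 4 j)) =
          (inner ℝ (x (Equiv.swap 2 4 1)) (x (Equiv.swap 2 4 j)) : ℝ)
        rw [e0, e1]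
        exact hm _ (ej j hj)
      · simp only [e0, e1, e2, e3, e4]
        rw [hv]; abel
      · simp only [e2, e3, e4]
        rw [← h0']; abel

end

end Pool.Agent.RieszF
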