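import Pool.Agent.RieszF.Defs

set_option autoImplicit false

open Real Finset

namespace Pool.Agent.RieszF

open Pool.Agent.RieszSmall (En)

section

variable {ι : Type*} [Fintype ι] [DecidableEq ι] {V : Type*} [NormedAddCommGroup V]
  [InnerProductSpace ℝ V]

/-- Existence of minimizers (compactness): on the compact set of all families of unit vectors with
`(1 - y_i·y_j)^(-q) ≤ En q x0` (i.e. `1 - y_i·y_j ≥ (En q x0)^(-1/q)`) for all `i ≠ j` the energy is
continuous; configurations outside of it have larger energy than `x0`. -/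
theorem exists_isMin [FiniteDimensional ℝ V] {q : ℝ} (hq : 0 < q) {x0 : ι → V} (h0 : Conf x0) :
    ∃ x : ι → V, IsMin q x := by
  set E : ℝ := En q x0 + 1 with hE
  have hterm : ∀ (y : ι → V), Conf y → ∀ i j, 0 ≤ (if i = j then (0 : ℝ) else
      (1 - inner ℝ (y i) (y j)) ^ (-q)) := by
    intro y hy i j
    split_ifs with hij
    · exact le_refl _
    · exact (Real.rpow_pos_of_pos (hy.dd_pos hij) _).le
  have hle : ∀ (y : ι → V), Conf y → ∀ i j, i ≠ j →
      (1 - inner ℝ (y i) (y j)) ^ (-q) ≤ En q y := by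
    intro y hy i j hij
    unfold En
    have h1 : (if i = j then (0 : ℝ) else (1 - inner ℝ (y i) (y j)) ^ (-q)) ≤
        ∑ j, if i = j then (0 : ℝ) else (1 - inner ℝ (y i) (y j)) ^ (-q) :=
      Finset.single_le_sum (fun j _ => hterm y hy i j) (Finset.mem_univ j)
    have h2 : (∑ j, if i = j then (0 : ℝ) else (1 - inner ℝ (y i) (y j)) ^ (-q)) ≤
        ∑ i, ∑ j, if i = j then (0 : ℝ) else (1 - inner ℝ (y i) (y j)) ^ (-q) :=
      Finset.single_le_sum (f := fun i => ∑ j, if i = j then (0 : ℝ) else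
        (1 - inner ℝ (y i) (y j)) ^ (-q))
        (fun i _ => Finset.sum_nonneg fun j _ => hterm y hy i j) (Finset.mem_univ i)
    rw [if_neg hij] at h1
    exact h1.trans h2
  have hE0 : 0 ≤ En q x0 :=
    Finset.sum_nonneg fun i _ => Finset.sum_nonneg fun j _ => hterm x0 h0 i j
  have hEpos : 0 < E := by linarith
  set m : ℝ := E ^ (-q⁻¹) with hm
  have hmpos : 0 < m := Real.rpow_pos_of_pos hEpos _
  have hmq : m ^ (-q) = E := by
    rw [hm, ← Real.rpow_mul hEpos.le]
    have : -q⁻¹ * -q = 1 := by field_simp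
    rw [this, Real.rpow_one]
  set S : Set (ι → V) := {y | (∀ i, ‖y i‖ = 1) ∧
    ∀ i j, i ≠ j → m ≤ 1 - inner ℝ (y i) (y j)} with hS
  have hSconf : ∀ y ∈ S, Conf y := by
    intro y hy
    refine conf_of_inner hy.1 fun i j hij => ?_
    have := hy.2 i j hij
    linarith
  -- configurations of small energy lie in `S`
  have hsmall : ∀ y, Conf y → En q y ≤ En q x0 → y ∈ S := by
    intro y hy hEy
    refine ⟨hy.unit, fun i j hij => ?_⟩
    by_contra hcon
    push Not at hcon
    have h1 : m ^ (-q) < (1 - inner ℝ (y i) (y j)) ^ (-q) :=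
      Real.rpow_lt_rpow_of_neg (hy.dd_pos hij) hcon (by linarith)
    have h2 := hle y hy i j hij
    rw [hmq] at h1
    linarith
  have hclosed : IsClosed S := by
    have h1 : S = (⋂ i, {y : ι → V | ‖y i‖ = 1}) ∩
        ⋂ i, ⋂ j, ⋂ (_ : i ≠ j), {y : ι → V | m ≤ 1 - inner ℝ (y i) (y j)} := by
      ext y
      simp only [hS, Set.mem_inter_iff, Set.mem_iInter, Set.mem_ofPred_eq]
    rw [h1]
    refine IsClosed.inter ?_ ?_
    · exact isClosed_iInter fun i =>
        isClosed_eq (continuous_norm.comp (continuous_apply i)) continuous_const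
    · exact isClosed_iInter fun i => isClosed_iInter fun j => isClosed_iInter fun _ =>
        isClosed_le continuous_const (continuous_const.sub
          ((continuous_apply i).inner (continuous_apply j)))
  have hbdd : S ⊆ Metric.closedBall 0 1 := by
    intro y hy
    rw [mem_closedBall_zero_iff, pi_norm_le_iff_of_nonneg zero_le_one]
    exact fun i => (hy.1 i).le
  have hcomp : IsCompact S :=
    (isCompact_closedBall (0 : ι → V) 1).of_isClosed_subset hclosed hbdd
  have hcont : ContinuousOn (En q) S := by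
    unfold En
    refine continuousOn_finsetSum _ fun i _ => continuousOn_finsetSum _ fun j _ => ?_
    by_cases hij : i = j
    · simp only [hij, if_true]
      exact continuousOn_const
    · simp only [hij, if_false]
      refine ContinuousOn.rpow_const ?_ ?_
      · exact (continuous_const.sub ((continuous_apply i).inner (continuous_apply j))).continuousOn
      · intro y hy
        left
        have := hy.2 i j hij
        linarith
  have hx0 : x0 ∈ S := hsmall x0 h0 le_rfl
  obtain ⟨x, hxS, hx⟩ := hcomp.exists_isMinOn ⟨x0, hx0⟩ hcont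
  refine ⟨x, hSconf x hxS, fun y hy => ?_⟩
  by_cases hEy : En q y ≤ En q x0
  · exact hx (hsmall y hy hEy)
  · have h1 : En q x ≤ En q x0 := hx hx0
    linarith

/-- The combinatorics of five signs. -/
theorem five_signs {a : Fin 5 → ℝ} (h2 : ∃ i j, i ≠ j ∧ 0 < a i ∧ 0 < a j)
    (h2' : ∃ i j, i ≠ j ∧ a i < 0 ∧ a j < 0) :
    ∃ (σ : Equiv.Perm (Fin 5)) (ε : ℝ), (ε = 1 ∨ ε = -1) ∧ 0 < ε * a (σ 0) ∧ 0 < ε * a (σ 1) ∧
      ε * a (σ 2) < 0 ∧ ε * a (σ 3) < 0 ∧ ε * a (σ 4) ≤ 0 := by
  obtain ⟨i, j, hij, hi, hj⟩ := h2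
  obtain ⟨k, l, hkl, hk, hl⟩ := h2'
  have hik : i ≠ k := fun h => by rw [h] at hi; linarith
  have hil : i ≠ l := fun h => by rw [h] at hi; linarith
  have hjk : j ≠ k := fun h => by rw [h] at hj; linarith
  have hjl : j ≠ l := fun h => by rw [h] at hj; linarith
  obtain ⟨m, hm⟩ : ∃ m, m ∉ ({i, j, k, l} : Finset (Fin 5)) := by
    by_contra hcon
    push Not at hcon
    have h1 : (Finset.univ : Finset (Fin 5)) ⊆ {i, j, k, l} := fun m _ => hcon m
    have h3 := Finset.card_le_card h1
    have h4 : ({i, j, k, l} : Finset (Fin 5)).card ≤ 4 := Finset.card_le_four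
    rw [Finset.card_univ, Fintype.card_fin] at h3
    omega
  simp only [Finset.mem_insert, Finset.mem_singleton, not_or] at hm
  obtain ⟨hmi, hmj, hmk, hml⟩ := hm
  have key : ∀ i j k l m : Fin 5, i ≠ j → k ≠ l → i ≠ k → i ≠ l → j ≠ k → j ≠ l → m ≠ i →
      m ≠ j → m ≠ k → m ≠ l → ∃ σ : Equiv.Perm (Fin 5), σ 0 = i ∧ σ 1 = j ∧ σ 2 = k ∧ σ 3 = l ∧
        σ 4 = m := by
    intro i j k l m h1 h2 h3 h4 h5 h6 h7 h8 h9 h10
    have hinj : Function.Injective (![i, j, k, l, m] : Fin 5 → Fin 5) := by
      intro a b hab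
      fin_cases a <;> fin_cases b <;> simp at hab ⊢ <;>
        first
        | exact absurd hab h1 | exact absurd hab.symm h1
        | exact absurd hab h2 | exact absurd hab.symm h2
        | exact absurd hab h3 | exact absurd hab.symm h3
        | exact absurd hab h4 | exact absurd hab.symm h4
        | exact absurd hab h5 | exact absurd hab.symm h5
        | exact absurd hab h6 | exact absurd hab.symm h6
        | exact absurd hab h7 | exact absurd hab.symm h7
        | exact absurd hab h8 | exact absurd hab.symm h8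
        | exact absurd hab h9 | exact absurd hab.symm h9
        | exact absurd hab h10 | exact absurd hab.symm h10
    exact ⟨Equiv.ofBijective _ (Finite.injective_iff_bijective.1 hinj), rfl, rfl, rfl, rfl, rfl⟩
  by_cases ha : a m ≤ 0
  · obtain ⟨σ, e0, e1, e2, e3, e4⟩ := key i j k l m hij hkl hik hil hjk hjl hmi hmj hmk hml
    refine ⟨σ, 1, Or.inl rfl, ?_, ?_, ?_, ?_, ?_⟩
    · rw [e0]; linarith
    · rw [e1]; linarith
    · rw [e2]; linarith
    · rw [e3]; linarith
    · rw [e4]; linarith
  · obtain ⟨σ, e0, e1, e2, e3, e4⟩ := key k l i j m hkl hij hik.symm hjk.symm hil.symm hjl.symm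
      hmk hml hmi hmj
    push Not at ha
    refine ⟨σ, -1, Or.inr rfl, ?_, ?_, ?_, ?_, ?_⟩
    · rw [e0]; linarith
    · rw [e1]; linarith
    · rw [e2]; linarith
    · rw [e3]; linarith
    · rw [e4]; linarith

end

end Pool.Agent.RieszF
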