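import Pool.Agent.RieszF.S1Var
import Pool.Agent.RieszF.S2Trace
import Pool.Agent.RieszF.S3Lin
import Pool.Agent.RieszF.S4Sign
import Pool.Agent.RieszF.S6Pyr
import Pool.Agent.RieszF.S7Coord
import Pool.Agent.RieszF.S8Exist

set_option autoImplicit false

open Real Finset

namespace Pool.Agent.RieszF

open Pool.Agent.RieszSmall (En)

section

variable {ι : Type*} [Fintype ι] [DecidableEq ι] {V : Type*} [NormedAddCommGroup V]
  [InnerProductSpace ℝ V]

/-- Part S: the structure of the minimizers of `dim + 2` points. -/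
theorem IsMin.splitting [FiniteDimensional ℝ V] {q : ℝ} (hq : 0 < q) {x : ι → V}
    (h : IsMin q x) (hcard : Fintype.card ι = Module.finrank ℝ V + 2) :
    ∃ a b : ι → ℝ, Splitting q x a b := by
  have h2 : 2 ≤ Fintype.card ι := by omega
  have hc1 : Module.finrank ℝ V + 1 < Fintype.card ι := by omega
  have htr := trace_lt hq h.1 hc1 h2
  have hlag := h.lagrange hq
  have hspan : Submodule.span ℝ (Set.range x) = ⊤ :=
    span_eq_top (KK q x) (fun e he hex i k hik => h.two_point hq he hex hik) htr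
  have hE := sum_KK_eq h.1 hlag
  have hE0 : 0 < ∑ i, ∑ j, KK q x i j := by
    rw [hE]
    refine lt_trans ?_ (energy_gt hq h.1 hc1 h2)
    have h3 : (2 : ℝ) ≤ Fintype.card ι := by exact_mod_cast h2
    have h4 : (0 : ℝ) < (Fintype.card ι : ℝ) - 1 := by linarith
    have h5 : (0 : ℝ) < (Fintype.card ι : ℝ) := by linarith
    have h6 : 0 < ((Fintype.card ι : ℝ) / ((Fintype.card ι : ℝ) - 1)) ^ (-q) :=
      Real.rpow_pos_of_pos (div_pos h5 h4) _
    positivity
  obtain ⟨a, b, ha0, ha, hb, hax, hbx, hK⟩ := exists_splitting (KK q x) (KK_symm q x) hspan hcard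
    hlag hE0 htr
  have hpos : ∃ i j, i ≠ j ∧ 0 < a i ∧ 0 < a j := two_pos h.1 ha0 ha hax
  have hneg : ∃ i j, i ≠ j ∧ a i < 0 ∧ a j < 0 := by
    obtain ⟨i, j, hij, hi, hj⟩ := two_pos h.1 (a := fun i => -a i)
      (fun h' => ha0 (funext fun i => by have := congrFun h' i; simpa using this))
      (by rw [Finset.sum_neg_distrib, ha, neg_zero])
      (by simp only [neg_smul, Finset.sum_neg_distrib, hax, neg_zero])
    exact ⟨i, j, hij, by linarith, by linarith⟩
  refine ⟨a, b, ?_, ha, hax, hbx, ?_, ?_, hpos, hneg⟩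
  · refine b_pos hb (fun i j hij => ?_) hpos hneg
    rw [← hK i j]
    exact KK_pos h.1 hij
  · intro i j hij
    rw [← hK i j, KK_ne q x hij]
  · intro i
    exact hK i i

end

/-- Part C for five points of `ℝ³`: a minimizer is (after relabelling) a pyramid whose parameter
satisfies the critical equation, or it has energy `FF` for some admissible data. -/
theorem five_structure {V : Type*} [NormedAddCommGroup V] [InnerProductSpace ℝ V]
    [FiniteDimensional ℝ V] (hfr : Module.finrank ℝ V = 3) {q : ℝ} (hq : 0 < q) {x : Fin 5 → V}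
    (h : IsMin q x) :
    (∃ (σ : Equiv.Perm (Fin 5)) (z : ℝ), 0 < z ∧ z < 1 ∧
      (1 - z) ^ (q + 1) = 2 * z * (1 + 2 ^ (-(q + 1))) ∧ Pyr z (fun i => x (σ i))) ∨
    (∃ z1 z2 v2 g s : ℝ, Adm z1 z2 v2 g s ∧ En q x = FF q z1 z2 v2 g s) := by
  obtain ⟨a, b, hab⟩ := h.splitting hq (by rw [hfr, Fintype.card_fin])
  obtain ⟨σ, ε, hε, h0, h1, h2, h3, h4⟩ := five_signs hab.pos2 hab.neg2
  have hs : Splitting q (fun i => x (σ i)) (fun i => ε * a (σ i)) (fun i => b (σ i)) := by
    rcases hε with rfl | rfl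
    · simpa using hab.relabel σ
    · simpa using (hab.relabel σ).neg
  have hc : Conf (fun i => x (σ i)) := (h.relabel σ).1
  rcases h4.lt_or_eq with h4 | h4
  · right
    obtain ⟨z1, z2, v2, g, s, hA, hE⟩ := hs.adm hq hc h0 h1 h2 h3 h4
    exact ⟨z1, z2, v2, g, s, hA, by rw [← hE, En_relabel q x σ]⟩
  · left
    obtain ⟨z, hz0, hz1, hz, hP⟩ := hs.pyr hq hc h0 h1 h2 h3 h4
    exact ⟨σ, z, hz0, hz1, hz, hP⟩

end Pool.Agent.RieszF
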