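import Mathlib
import Pool.Agent.RieszSmall.Energy

set_option autoImplicit false

open Real Finset

namespace Pool.Agent.RieszF

open Pool.Agent.RieszSmall (En)

/-- tangent lines of `y ↦ y ^ (-q)`. -/
lemma tan_le {q a y : ℝ} (hq : 0 < q) (ha : 0 < a) (hy : 0 < y) :
    a ^ (-q) - q * a ^ (-(q + 1)) * (y - a) ≤ y ^ (-q) := by
  have h := Pool.Agent.RieszSmall.tangent_ineq (q := q) (t := a⁻¹) (y := y) hq (inv_pos.2 ha) hy
  rw [Real.inv_rpow ha.le, Real.inv_rpow ha.le, ← Real.rpow_neg ha.le, ← Real.rpow_neg ha.le] at h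
  have h2 : a ^ (-(q + 1)) * a = a ^ (-q) := by
    rw [← Real.rpow_add_one ha.ne']
    congr 1
    ring
  nlinarith

/-- equality in `tan_le` only at the point of tangency. -/
lemma tan_eq {q a y : ℝ} (hq : 0 < q) (ha : 0 < a) (hy : 0 < y)
    (h : a ^ (-q) - q * a ^ (-(q + 1)) * (y - a) = y ^ (-q)) : y = a := by
  have h2 : a ^ (-(q + 1)) * a = a ^ (-q) := by
    rw [← Real.rpow_add_one ha.ne']
    congr 1
    ring
  have h3 := Pool.Agent.RieszSmall.tangent_eq (q := q) (t := a⁻¹) (y := y) hq (inv_pos.2 ha) hy (by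
    rw [Real.inv_rpow ha.le, Real.inv_rpow ha.le, ← Real.rpow_neg ha.le, ← Real.rpow_neg ha.le,
      ← h]
    nlinarith)
  field_simp at h3
  exact h3

section

variable {ι : Type*} [Fintype ι] [DecidableEq ι] {V : Type*} [NormedAddCommGroup V]
  [InnerProductSpace ℝ V]

/-- Configurations: families of pairwise different unit vectors. -/
structure Conf (x : ι → V) : Prop where
  inj : Function.Injective x
  unit : ∀ i, ‖x i‖ = 1

/-- Minimizers of the energy `En q` among the configurations. -/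
def IsMin (q : ℝ) (x : ι → V) : Prop := Conf x ∧ ∀ y : ι → V, Conf y → En q x ≤ En q y

/-- The matrix `K`: off the diagonal `(1 - x_i·x_j) ^ (-(q+1))`, on the diagonal
`- ∑ k ≠ i, (1 - x_i·x_k) ^ (-(q+1)) * x_i·x_k`. -/
noncomputable def KK (q : ℝ) (x : ι → V) (i j : ι) : ℝ :=
  if i = j then
    -∑ k ∈ univ.erase i, (1 - inner ℝ (x i) (x k)) ^ (-(q + 1)) * inner ℝ (x i) (x k)
  else (1 - inner ℝ (x i) (x j)) ^ (-(q + 1))

omit [Fintype ι] [DecidableEq ι] in
lemma Conf.inner_self {x : ι → V} (h : Conf x) (i : ι) : inner ℝ (x i) (x i) = (1 : ℝ) := by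
  rw [real_inner_self_eq_norm_sq, h.unit]; norm_num

omit [Fintype ι] [DecidableEq ι] in
/-- two different points have inner product `< 1`. -/
lemma Conf.inner_lt {x : ι → V} (h : Conf x) {i j : ι} (hij : i ≠ j) :
    inner ℝ (x i) (x j) < (1 : ℝ) := by
  have h1 : ‖x i - x j‖ ^ 2 = 2 * (1 - inner ℝ (x i) (x j)) := by
    rw [norm_sub_sq_real, h.unit, h.unit]; ring
  have h2 : 0 < ‖x i - x j‖ := norm_pos_iff.2 (sub_ne_zero.2 (fun h' => hij (h.inj h')))
  have : 0 < ‖x i - x j‖ ^ 2 := by positivity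
  linarith

omit [Fintype ι] [DecidableEq ι] in
lemma Conf.dd_pos {x : ι → V} (h : Conf x) {i j : ι} (hij : i ≠ j) :
    (0 : ℝ) < 1 - inner ℝ (x i) (x j) := by linarith [h.inner_lt hij]

omit [Fintype ι] [DecidableEq ι] in
lemma conf_of_inner {x : ι → V} (hu : ∀ i, ‖x i‖ = 1)
    (hlt : ∀ i j, i ≠ j → inner ℝ (x i) (x j) < (1 : ℝ)) : Conf x := by
  refine ⟨fun i j hij => ?_, hu⟩
  by_contra hne
  have h1 := hlt i j hne
  rw [hij, real_inner_self_eq_norm_sq, hu] at h1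
  norm_num at h1

lemma KK_ne (q : ℝ) (x : ι → V) {i j : ι} (hij : i ≠ j) :
    KK q x i j = (1 - inner ℝ (x i) (x j)) ^ (-(q + 1)) := by
  unfold KK; rw [if_neg hij]

lemma KK_symm (q : ℝ) (x : ι → V) (i j : ι) : KK q x i j = KK q x j i := by
  by_cases hij : i = j
  · rw [hij]
  · rw [KK_ne q x hij, KK_ne q x (Ne.symm hij), real_inner_comm]

lemma KK_pos {q : ℝ} {x : ι → V} (h : Conf x) {i j : ι} (hij : i ≠ j) : 0 < KK q x i j := by
  rw [KK_ne q x hij]
  exact Real.rpow_pos_of_pos (h.dd_pos hij) _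

/-- What part S yields at a minimizer of `dim + 2` points. -/
structure Splitting (q : ℝ) (x : ι → V) (a b : ι → ℝ) : Prop where
  bpos : ∀ i, 0 < b i
  asum : ∑ i, a i = 0
  ax : ∑ i, a i • x i = 0
  bx : ∑ i, b i • x i = 0
  K : ∀ i j, i ≠ j → (1 - inner ℝ (x i) (x j)) ^ (-(q + 1)) = b i * b j - a i * a j
  Kd : ∀ i, KK q x i i = b i * b i - a i * a i
  pos2 : ∃ i j, i ≠ j ∧ 0 < a i ∧ 0 < a j
  neg2 : ∃ i j, i ≠ j ∧ a i < 0 ∧ a j < 0

/-- relabelling. -/
theorem En_relabel (q : ℝ) (x : ι → V) (σ : Equiv.Perm ι) : En q (fun i => x (σ i)) = En q x := by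
  unfold En
  rw [← Equiv.sum_comp σ (fun i => ∑ j, if i = j then 0 else (1 - inner ℝ (x i) (x j)) ^ (-q))]
  refine Finset.sum_congr rfl (fun i _ => ?_)
  rw [← Equiv.sum_comp σ (fun j => if σ i = j then 0 else (1 - inner ℝ (x (σ i)) (x j)) ^ (-q))]
  refine Finset.sum_congr rfl (fun j _ => ?_)
  simp only [EmbeddingLike.apply_eq_iff_eq]

omit [Fintype ι] [DecidableEq ι] in
theorem Conf.relabel {x : ι → V} (h : Conf x) (σ : Equiv.Perm ι) : Conf (fun i => x (σ i)) :=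
  ⟨h.inj.comp σ.injective, fun i => h.unit _⟩

theorem IsMin.relabel {q : ℝ} {x : ι → V} (h : IsMin q x) (σ : Equiv.Perm ι) :
    IsMin q (fun i => x (σ i)) := by
  refine ⟨h.1.relabel σ, fun y hy => ?_⟩
  rw [En_relabel]
  exact h.2 y hy

theorem KK_relabel (q : ℝ) (x : ι → V) (σ : Equiv.Perm ι) (i j : ι) :
    KK q (fun i => x (σ i)) i j = KK q x (σ i) (σ j) := by
  unfold KK
  simp only [EmbeddingLike.apply_eq_iff_eq]
  split_ifs with hij
  · congr 1
    symm
    rw [← Finset.sum_equiv σ (s := univ.erase i) (t := univ.erase (σ i))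
      (f := fun k => (1 - inner ℝ (x (σ i)) (x (σ k))) ^ (-(q + 1)) * inner ℝ (x (σ i)) (x (σ k)))
      (g := fun k => (1 - inner ℝ (x (σ i)) (x k)) ^ (-(q + 1)) * inner ℝ (x (σ i)) (x k))]
    · intro k; simp
    · intro k _; rfl
  · rfl

theorem Splitting.relabel {q : ℝ} {x : ι → V} {a b : ι → ℝ} (h : Splitting q x a b)
    (σ : Equiv.Perm ι) :
    Splitting q (fun i => x (σ i)) (fun i => a (σ i)) (fun i => b (σ i)) := by
  refine ⟨fun i => h.bpos _, ?_, ?_, ?_, fun i j hij => h.K _ _ (fun h' => hij (σ.injective h')),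
    fun i => ?_, ?_, ?_⟩
  · rw [Equiv.sum_comp σ a, h.asum]
  · rw [Equiv.sum_comp σ (fun i => a i • x i), h.ax]
  · rw [Equiv.sum_comp σ (fun i => b i • x i), h.bx]
  · rw [KK_relabel]; exact h.Kd _
  · obtain ⟨i, j, hij, hi, hj⟩ := h.pos2
    exact ⟨σ.symm i, σ.symm j, fun h' => hij (σ.symm.injective h'), by simpa using hi,
      by simpa using hj⟩
  · obtain ⟨i, j, hij, hi, hj⟩ := h.neg2
    exact ⟨σ.symm i, σ.symm j, fun h' => hij (σ.symm.injective h'), by simpa using hi,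
      by simpa using hj⟩

/-- The reflected splitting. -/
theorem Splitting.neg {q : ℝ} {x : ι → V} {a b : ι → ℝ} (h : Splitting q x a b) :
    Splitting q x (fun i => -a i) b := by
  refine ⟨h.bpos, ?_, ?_, h.bx, fun i j hij => ?_, fun i => ?_, ?_, ?_⟩
  · rw [Finset.sum_neg_distrib, h.asum, neg_zero]
  · simp only [neg_smul, Finset.sum_neg_distrib, h.ax, neg_zero]
  · rw [h.K i j hij]; ring
  · rw [h.Kd i]; ring
  · obtain ⟨i, j, hij, hi, hj⟩ := h.neg2
    exact ⟨i, j, hij, by linarith, by linarith⟩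
  · obtain ⟨i, j, hij, hi, hj⟩ := h.pos2
    exact ⟨i, j, hij, by linarith, by linarith⟩

end

end Pool.Agent.RieszF
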