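import Pool.Agent.RieszF.Defs

set_option autoImplicit false

open Real Finset Filter Topology

namespace Pool.Agent.RieszF

open Pool.Agent.RieszSmall (En)

section

variable {ι : Type*} [Fintype ι] [DecidableEq ι] {V : Type*} [NormedAddCommGroup V]
  [InnerProductSpace ℝ V]

/-- S1a (first variation, one-sided).  `y u` (`0 < u < 1`) are families of unit vectors with
`y_i·y_j = x_i·x_j - u * d i j u`, and `d i j` is continuous at `0`.
Proof: by convexity (`tan_le` at the new distances `D' = D + u d`, all positive for small `u`),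
`En x ≥ En (y u) + q u ∑ D'^(-(q+1)) d(u)`; `y u` is a configuration for small `u`, so
`En x ≤ En (y u)`, so `∑ D'^(-(q+1)) d(u) ≤ 0` for small `u > 0`; let `u → 0+`. -/
theorem IsMin.first_var {q : ℝ} (hq : 0 < q) {x : ι → V} (h : IsMin q x) (y : ℝ → ι → V)
    (d : ι → ι → ℝ → ℝ) (hy : ∀ u : ℝ, 0 < u → u < 1 → ∀ i, ‖y u i‖ = 1)
    (hd : ∀ i j, ContinuousAt (d i j) 0)
    (he : ∀ u : ℝ, 0 < u → u < 1 → ∀ i j, i ≠ j →
      inner ℝ (y u i) (y u j) = inner ℝ (x i) (x j) - u * d i j u) :
    ∑ i, ∑ j, (if i = j then 0 else KK q x i j * d i j 0) ≤ 0 := by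
  obtain ⟨hc, hmin⟩ := h
  set D : ι → ι → ℝ → ℝ := fun i j u => 1 - inner ℝ (x i) (x j) + u * d i j u with hD
  have hDc : ∀ i j, ContinuousAt (D i j) 0 := fun i j =>
    continuousAt_const.add (continuousAt_id.mul (hd i j))
  have hD0 : ∀ i j, D i j 0 = 1 - inner ℝ (x i) (x j) := fun i j => by simp [hD]
  have hF : Tendsto
      (fun u => ∑ i, ∑ j, (if i = j then 0 else (D i j u) ^ (-(q + 1)) * d i j u)) (𝓝[>] 0)
      (𝓝 (∑ i, ∑ j, (if i = j then 0 else KK q x i j * d i j 0))) := by
    refine Tendsto.mono_left ?_ nhdsWithin_le_nhds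
    refine tendsto_finsetSum _ fun i _ => tendsto_finsetSum _ fun j _ => ?_
    by_cases hij : i = j
    · simp [hij]
    · simp only [if_neg hij]
      rw [KK_ne q x hij, ← hD0 i j]
      exact ((hDc i j).rpow_const (Or.inl (by rw [hD0]; exact (hc.dd_pos hij).ne'))).mul (hd i j)
  refine le_of_tendsto hF ?_
  have hpos : ∀ᶠ u in 𝓝[>] (0:ℝ), ∀ i j, i ≠ j → 0 < D i j u := by
    rw [eventually_all]
    intro i
    rw [eventually_all]
    intro j
    by_cases hij : i = j
    · exact Eventually.of_forall fun u h => absurd hij h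
    · have h0 := (hDc i j).eventually
        (lt_mem_nhds (show 0 < D i j 0 by rw [hD0]; exact hc.dd_pos hij))
      filter_upwards [nhdsWithin_le_nhds h0] with u hu _ using hu
  have h01 : ∀ᶠ u in 𝓝[>] (0:ℝ), u < 1 := nhdsWithin_le_nhds (Iio_mem_nhds one_pos)
  filter_upwards [hpos, h01, self_mem_nhdsWithin] with u hu hu1 hu0
  have hu0' : 0 < u := hu0
  have hcy : Conf (y u) := conf_of_inner (hy u hu0' hu1) fun i j hij => by
    rw [he u hu0' hu1 i j hij]
    have h3 := hu i j hij
    simp only [hD] at h3
    linarith
  have h1 := hmin (y u) hcy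
  have h2 : En q (y u)
      + q * u * (∑ i, ∑ j, (if i = j then 0 else (D i j u) ^ (-(q + 1)) * d i j u)) ≤ En q x := by
    unfold En
    rw [Finset.mul_sum, ← Finset.sum_add_distrib]
    refine Finset.sum_le_sum fun i _ => ?_
    rw [Finset.mul_sum, ← Finset.sum_add_distrib]
    refine Finset.sum_le_sum fun j _ => ?_
    by_cases hij : i = j
    · simp [hij]
    · simp only [if_neg hij]
      have h3 := tan_le hq (hu i j hij) (hc.dd_pos hij)
      have h4 : (1:ℝ) - inner ℝ (y u i) (y u j) = D i j u := by
        rw [he u hu0' hu1 i j hij]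
        simp only [hD]
        ring
      rw [h4]
      have h5 : (1:ℝ) - inner ℝ (x i) (x j) - D i j u = - (u * d i j u) := by
        simp only [hD]
        ring
      rw [h5] at h3
      linarith
  have hqu : 0 < q * u := mul_pos hq hu0'
  by_contra hcon
  push Not at hcon
  have h3 := mul_pos hqu hcon
  linarith

/-- the diagonal entry of `K`, as a sum over all indices. -/
private lemma S1Var_KK_diag (q : ℝ) (x : ι → V) (a : ι) :
    ∑ b, (if a = b then 0 else KK q x a b * inner ℝ (x a) (x b)) = -KK q x a a := by
  have h1 : KK q x a a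
      = -∑ k ∈ univ.erase a, (1 - inner ℝ (x a) (x k)) ^ (-(q + 1)) * inner ℝ (x a) (x k) := by
    unfold KK
    rw [if_pos rfl]
  rw [h1, neg_neg, ← Finset.add_sum_erase univ _ (Finset.mem_univ a), if_pos rfl, zero_add]
  refine Finset.sum_congr rfl fun b hb => ?_
  have hab : a ≠ b := (Finset.ne_of_mem_erase hb).symm
  rw [if_neg hab, KK_ne q x hab]

/-- S1b (Lagrange condition).  With `w = ∑ j, K i j • x j` one has `w·x_i = 0`; if `w ≠ 0` move
`x_i` to `((1-u²) x_i - 2u h)/(1+u²)`, `h = w/‖w‖`, and use `first_var`. -/
theorem IsMin.lagrange {q : ℝ} (hq : 0 < q) {x : ι → V} (h : IsMin q x) (i : ι) :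
    ∑ j, KK q x i j • x j = 0 := by
  by_contra hw
  set w : V := ∑ j, KK q x i j • x j with hwdef
  have hc := h.1
  have hwn : 0 < ‖w‖ := norm_pos_iff.2 hw
  have hxw : inner ℝ (x i) w = (0 : ℝ) := by
    rw [hwdef, inner_sum, ← Finset.add_sum_erase univ _ (Finset.mem_univ i)]
    simp only [inner_smul_right]
    rw [hc.inner_self, mul_one]
    have h1 := S1Var_KK_diag q x i
    rw [← Finset.add_sum_erase univ _ (Finset.mem_univ i), if_pos rfl, zero_add] at h1
    have h2 : ∑ b ∈ univ.erase i, (if i = b then 0 else KK q x i b * inner ℝ (x i) (x b))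
        = ∑ b ∈ univ.erase i, KK q x i b * inner ℝ (x i) (x b) :=
      Finset.sum_congr rfl fun b hb => if_neg (Finset.ne_of_mem_erase hb).symm
    rw [h2] at h1
    linarith
  set g : V := ‖w‖⁻¹ • w with hg
  have hgn : ‖g‖ = 1 := by
    rw [hg, norm_smul, norm_inv, norm_norm, inv_mul_cancel₀ hwn.ne']
  have hxg : inner ℝ (x i) g = (0 : ℝ) := by
    rw [hg, inner_smul_right, hxw, mul_zero]
  have hgg : inner ℝ g g = (1 : ℝ) := by
    rw [real_inner_self_eq_norm_sq, hgn]
    norm_num
  have hxi := hc.inner_self i
  have key := h.first_var hq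
    (fun u a => if a = i then (1 + u ^ 2)⁻¹ • ((1 - u ^ 2) • x i - (2 * u) • g) else x a)
    (fun a b u => if a = i then (2 * u * inner ℝ (x i) (x b) + 2 * inner ℝ g (x b)) / (1 + u ^ 2)
      else if b = i then (2 * u * inner ℝ (x i) (x a) + 2 * inner ℝ g (x a)) / (1 + u ^ 2) else 0)
    ?_ ?_ ?_
  · have e : ∀ a b : ι, (if a = b then 0 else KK q x a b *
        (if a = i then (2 * (0:ℝ) * inner ℝ (x i) (x b) + 2 * inner ℝ g (x b)) / (1 + 0 ^ 2)
          else if b = i then (2 * 0 * inner ℝ (x i) (x a) + 2 * inner ℝ g (x a)) / (1 + 0 ^ 2)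
            else 0))
        = (if a = i then 2 * (KK q x i b * inner ℝ g (x b)) else 0)
          + (if b = i then 2 * (KK q x i a * inner ℝ g (x a)) else 0) := by
      intro a b
      have h0 : inner ℝ g (x i) = (0 : ℝ) := by rw [real_inner_comm]; exact hxg
      by_cases ha : a = i
      · by_cases hb : b = i
        · subst ha; subst hb
          simp [h0]
        · subst ha
          rw [if_neg (Ne.symm hb), if_pos rfl, if_pos rfl, if_neg hb]
          ring
      · by_cases hb : b = i
        · subst hb
          rw [if_neg ha, if_neg ha, if_pos rfl, if_neg ha, if_pos rfl, KK_symm q x b a]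
          ring
        · rw [if_neg ha, if_neg hb, if_neg ha, if_neg hb]
          simp
    have hsum : ∑ b, KK q x i b * inner ℝ g (x b) = ‖w‖ := by
      have h1 : ∑ b, KK q x i b * inner ℝ g (x b) = inner ℝ g w := by
        rw [hwdef, inner_sum]
        refine Finset.sum_congr rfl fun b _ => ?_
        rw [inner_smul_right]
      rw [h1, hg, inner_smul_left, real_inner_self_eq_norm_sq]
      simp only [conj_trivial]
      field_simp
    simp only [e, Finset.sum_add_distrib] at key
    have k1 : ∑ a : ι, ∑ b : ι, (if a = i then 2 * (KK q x i b * inner ℝ g (x b)) else 0)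
        = 2 * ‖w‖ := by
      rw [Finset.sum_comm]
      simp only [Finset.sum_ite_eq', Finset.mem_univ, if_true]
      rw [← Finset.mul_sum, hsum]
    have k2 : ∑ a : ι, ∑ b : ι, (if b = i then 2 * (KK q x i a * inner ℝ g (x a)) else 0)
        = 2 * ‖w‖ := by
      simp only [Finset.sum_ite_eq', Finset.mem_univ, if_true]
      rw [← Finset.mul_sum, hsum]
    rw [k1, k2] at key
    linarith
  · intro u hu0 hu1 a
    by_cases ha : a = i
    · simp only [if_pos ha]
      have h1 : ‖(1 - u ^ 2) • x i - (2 * u) • g‖ ^ 2 = (1 + u ^ 2) ^ 2 := by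
        rw [norm_sub_sq_real, norm_smul, norm_smul, hc.unit, hgn, inner_smul_left,
          inner_smul_right, hxg]
        simp only [Real.norm_eq_abs, mul_one, mul_zero, sub_zero, sq_abs]
        ring
      have h2 : ‖(1 - u ^ 2) • x i - (2 * u) • g‖ = 1 + u ^ 2 :=
        (sq_eq_sq₀ (norm_nonneg _) (by positivity)).1 h1
      rw [norm_smul, h2, norm_inv, Real.norm_of_nonneg (by positivity : (0:ℝ) ≤ 1 + u ^ 2)]
      exact inv_mul_cancel₀ (by positivity)
    · simp only [if_neg ha]
      exact hc.unit a
  · intro a b
    by_cases ha : a = i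
    · simp only [if_pos ha]
      refine ContinuousAt.div (by fun_prop) (by fun_prop) (by norm_num)
    · by_cases hb : b = i
      · simp only [if_neg ha, if_pos hb]
        refine ContinuousAt.div (by fun_prop) (by fun_prop) (by norm_num)
      · simp only [if_neg ha, if_neg hb]
        exact continuousAt_const
  · intro u hu0 hu1 a b hab
    have h1 : (1 : ℝ) + u ^ 2 ≠ 0 := by positivity
    by_cases ha : a = i
    · have hb : b ≠ i := fun hb => hab (ha.trans hb.symm)
      simp only [if_pos ha, if_neg hb]
      rw [inner_smul_left, inner_sub_left, inner_smul_left, inner_smul_left, ha]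
      simp only [conj_trivial]
      field_simp
      ring
    · by_cases hb : b = i
      · simp only [if_neg ha, if_pos hb]
        rw [inner_smul_right, inner_sub_right, inner_smul_right, inner_smul_right, hb,
          real_inner_comm g (x a), real_inner_comm (x i) (x a)]
        field_simp
        ring
      · simp only [if_neg ha, if_neg hb]
        ring

/-- S1c (two-point move).  `x_i ↦ (1-u) x_i + √(2u-u²) e`, `x_k ↦ (1-u) x_k - √(2u-u²) e`:
`G_ij ↦ (1-u) G_ij`, `G_kj ↦ (1-u) G_kj` (`j ≠ i,k`), `G_ik ↦ (1-u)² G_ik - (2u-u²)`. -/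
theorem IsMin.two_point {q : ℝ} (hq : 0 < q) {x : ι → V} (h : IsMin q x) {e : V} (he : ‖e‖ = 1)
    (hex : ∀ j, inner ℝ (x j) e = (0 : ℝ)) {i k : ι} (hik : i ≠ k) :
    2 * KK q x i k ≤ KK q x i i + KK q x k k := by
  have hc := h.1
  have hee : inner ℝ e e = (1 : ℝ) := by
    rw [real_inner_self_eq_norm_sq, he]
    norm_num
  have hex' : ∀ j, inner ℝ e (x j) = (0 : ℝ) := fun j => by rw [real_inner_comm]; exact hex j
  set t : ι → ℝ := fun a => (if a = i then 1 else 0) + (if a = k then 1 else 0) with ht
  set s : ι → ℝ := fun a => (if a = i then 1 else 0) - (if a = k then 1 else 0) with hs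
  have hin : ∀ u : ℝ, 0 < u → u < 1 → ∀ a b,
      inner ℝ ((1 - u * t a) • x a + (√(2 * u - u ^ 2) * s a) • e)
        ((1 - u * t b) • x b + (√(2 * u - u ^ 2) * s b) • e)
      = (1 - u * t a) * (1 - u * t b) * inner ℝ (x a) (x b) + (2 * u - u ^ 2) * (s a * s b) := by
    intro u hu0 hu1 a b
    have h1 : √(2 * u - u ^ 2) * √(2 * u - u ^ 2) = 2 * u - u ^ 2 :=
      Real.mul_self_sqrt (by nlinarith)
    simp only [inner_add_left, inner_add_right, inner_smul_left, inner_smul_right, conj_trivial,
      hex, hex', hee]
    linear_combination (s a * s b) * h1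
  have key := h.first_var hq
    (fun u a => (1 - u * t a) • x a + (√(2 * u - u ^ 2) * s a) • e)
    (fun a b u => ((t a + t b) - u * (t a * t b)) * inner ℝ (x a) (x b) - (2 - u) * (s a * s b))
    ?_ ?_ ?_
  · have e1 : ∀ a b : ι, (if a = b then 0 else KK q x a b *
        (((t a + t b) - 0 * (t a * t b)) * inner ℝ (x a) (x b) - (2 - 0) * (s a * s b)))
        = (t a * (if a = b then 0 else KK q x a b * inner ℝ (x a) (x b))
          + t b * (if b = a then 0 else KK q x b a * inner ℝ (x b) (x a)))
          + ((if a = i then (if b = k then 2 * KK q x i k else 0) else 0)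
            + (if a = k then (if b = i then 2 * KK q x i k else 0) else 0)) := by
      intro a b
      by_cases hab : a = b
      · subst hab
        simp only [if_true, mul_zero, add_zero, zero_add]
        by_cases ha : a = i
        · rw [if_pos ha, if_neg (fun hak : a = k => hik (ha.symm.trans hak)),
            if_neg (fun hak : a = k => hik (ha.symm.trans hak)), add_zero]
        · rw [if_neg ha, if_neg ha]
          split_ifs <;> simp
      · rw [if_neg hab, if_neg hab, if_neg (Ne.symm hab), KK_symm q x b a,
          real_inner_comm (x a) (x b)]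
        simp only [ht, hs]
        by_cases ha : a = i
        · have hak : a ≠ k := fun hak => hik (ha.symm.trans hak)
          have hbi : b ≠ i := fun hb => hab (ha.trans hb.symm)
          by_cases hb : b = k
          · subst ha; subst hb
            simp only [if_true, if_neg hik, if_neg (Ne.symm hik)]
            ring
          · simp only [if_pos ha, if_neg hak, if_neg hbi, if_neg hb]
            ring
        · by_cases hak : a = k
          · have hbk : b ≠ k := fun hb => hab (hak.trans hb.symm)
            by_cases hb : b = i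
            · subst hak; subst hb
              simp only [if_true, if_neg hik, if_neg (Ne.symm hik)]
              rw [KK_symm q x a b]
              ring
            · simp only [if_neg ha, if_pos hak, if_neg hbk, if_neg hb]
              ring
          · by_cases hb : b = i
            · have hbk : b ≠ k := fun hb' => hik (hb.symm.trans hb')
              simp only [if_neg ha, if_neg hak, if_pos hb, if_neg hbk]
              ring
            · by_cases hbk : b = k
              · simp only [if_neg ha, if_neg hak, if_neg hb, if_pos hbk]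
                ring
              · simp only [if_neg ha, if_neg hak, if_neg hb, if_neg hbk]
                ring
    simp only [e1, Finset.sum_add_distrib] at key
    have k1 : ∑ a : ι, ∑ b : ι,
        t a * (if a = b then 0 else KK q x a b * inner ℝ (x a) (x b))
        = -(KK q x i i + KK q x k k) := by
      simp only [← Finset.mul_sum, S1Var_KK_diag]
      simp only [ht, add_mul, Finset.sum_add_distrib, ite_mul, zero_mul, one_mul,
        Finset.sum_ite_eq', Finset.mem_univ, if_true]
      ring
    have k2 : ∑ a : ι, ∑ b : ι,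
        t b * (if b = a then 0 else KK q x b a * inner ℝ (x b) (x a))
        = -(KK q x i i + KK q x k k) := by
      rw [Finset.sum_comm]
      exact k1
    have k3 : ∑ a : ι, ∑ b : ι, (if a = i then (if b = k then 2 * KK q x i k else 0) else 0)
        = 2 * KK q x i k := by
      rw [Finset.sum_comm]
      simp only [Finset.sum_ite_eq', Finset.mem_univ, if_true]
    have k4 : ∑ a : ι, ∑ b : ι, (if a = k then (if b = i then 2 * KK q x i k else 0) else 0)
        = 2 * KK q x i k := by
      rw [Finset.sum_comm]
      simp only [Finset.sum_ite_eq', Finset.mem_univ, if_true]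
    rw [k1, k2, k3, k4] at key
    linarith
  · intro u hu0 hu1 a
    have h1 := hin u hu0 hu1 a a
    rw [real_inner_self_eq_norm_sq, hc.inner_self] at h1
    have h2 : ‖(1 - u * t a) • x a + (√(2 * u - u ^ 2) * s a) • e‖ ^ 2 = 1 := by
      rw [h1]
      simp only [ht, hs]
      by_cases ha : a = i
      · have hak : a ≠ k := fun hak => hik (ha.symm.trans hak)
        simp only [if_pos ha, if_neg hak]
        ring
      · by_cases hak : a = k
        · simp only [if_neg ha, if_pos hak]
          ring
        · simp only [if_neg ha, if_neg hak]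
          ring
    have h3 : (0:ℝ) ≤ ‖(1 - u * t a) • x a + (√(2 * u - u ^ 2) * s a) • e‖ := norm_nonneg _
    nlinarith
  · intro a b
    fun_prop
  · intro u hu0 hu1 a b _
    show inner ℝ ((1 - u * t a) • x a + (√(2 * u - u ^ 2) * s a) • e)
        ((1 - u * t b) • x b + (√(2 * u - u ^ 2) * s b) • e) = _
    rw [hin u hu0 hu1 a b]
    ring

end

end Pool.Agent.RieszF
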