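import Pool.Agent.RieszF.Defs

set_option autoImplicit false

open Real Finset

namespace Pool.Agent.RieszF

open Pool.Agent.RieszSmall (En)

section

variable {ι : Type*} [Fintype ι] [DecidableEq ι] {V : Type*} [NormedAddCommGroup V]
  [InnerProductSpace ℝ V]

/-- S7. -/
theorem Splitting.sum_a {q : ℝ} {x : ι → V} {a b : ι → ℝ} (h : Splitting q x a b) (i : ι) :
    ∑ j, (1 - inner ℝ (x i) (x j)) * a j = 0 := by
  have h1 : ∑ j, (1 - inner ℝ (x i) (x j)) * a j =
      ∑ j, a j - inner ℝ (x i) (∑ j, a j • x j) := by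
    rw [inner_sum, ← Finset.sum_sub_distrib]
    refine Finset.sum_congr rfl fun j _ => ?_
    rw [real_inner_smul_right]
    ring
  rw [h1, h.asum, h.ax, inner_zero_right, sub_zero]

theorem Splitting.sum_b {q : ℝ} {x : ι → V} {a b : ι → ℝ} (h : Splitting q x a b) (i : ι) :
    ∑ j, (1 - inner ℝ (x i) (x j)) * b j = ∑ j, b j := by
  have h1 : ∑ j, (1 - inner ℝ (x i) (x j)) * b j =
      ∑ j, b j - inner ℝ (x i) (∑ j, b j • x j) := by
    rw [inner_sum, ← Finset.sum_sub_distrib]
    refine Finset.sum_congr rfl fun j _ => ?_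
    rw [real_inner_smul_right]
    ring
  rw [h1, h.bx, inner_zero_right, sub_zero]

omit [Fintype ι] in
private lemma S5Key_mem {i j k : ι} {s : Finset ι} (h : k ∈ (s.erase i).erase j) :
    k ≠ i ∧ k ≠ j := by
  rw [mem_erase, mem_erase] at h
  exact ⟨h.2.1, h.1⟩

private lemma S5Key_split (F : ι → ℝ) {i j : ι} (hij : i ≠ j) :
    ∑ k, F k = F i + (F j + ∑ k ∈ (univ.erase i).erase j, F k) := by
  rw [← Finset.add_sum_erase univ F (mem_univ i),
    ← Finset.add_sum_erase (univ.erase i) F (mem_erase.2 ⟨hij.symm, mem_univ j⟩)]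

private theorem S5Key_aux {q : ℝ} (hq : 0 < q) {x : ι → V} (hx : Conf x) {a b : ι → ℝ}
    (h : Splitting q x a b) {i j : ι} (hij : i ≠ j) (hi : 0 < a i) (hj : 0 < a j)
    (hrest : ∀ k, k ≠ i → k ≠ j → a k ≤ 0) (hle : a j ≤ a i) : a i = a j ∧ b i = b j := by
  set D : ι → ι → ℝ := fun k l => 1 - inner ℝ (x k) (x l) with hD
  have hDpos : ∀ k l, k ≠ l → 0 < D k l := fun k l hkl => hx.dd_pos hkl
  have hDself : ∀ k, D k k = 0 := by
    intro k
    simp only [hD]
    rw [hx.inner_self, sub_self]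
  have hDsymm : ∀ k l, D k l = D l k := by
    intro k l
    simp only [hD]
    rw [real_inner_comm]
  have hK : ∀ k l, k ≠ l → D k l ^ (-(q + 1)) = b k * b l - a k * a l := fun k l hkl => h.K k l hkl
  set T : Finset ι := (univ.erase i).erase j with hT
  -- the identities
  have ha1 : a j * D i j = ∑ k ∈ T, -(a k) * D i k := by
    have h1 := h.sum_a i
    rw [S5Key_split _ hij] at h1
    have h2 : ∑ k ∈ T, -(a k) * D i k = -∑ k ∈ T, (1 - inner ℝ (x i) (x k)) * a k := by
      rw [← Finset.sum_neg_distrib]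
      refine Finset.sum_congr rfl fun k _ => ?_
      simp only [hD]
      ring
    have h3 : (1 - inner ℝ (x i) (x i)) = (0 : ℝ) := hDself i
    rw [h2]
    rw [h3] at h1
    simp only [hD]
    linarith
  have ha2 : a i * D i j = ∑ k ∈ T, -(a k) * D j k := by
    have h1 := h.sum_a j
    rw [S5Key_split _ hij] at h1
    have h2 : ∑ k ∈ T, -(a k) * D j k = -∑ k ∈ T, (1 - inner ℝ (x j) (x k)) * a k := by
      rw [← Finset.sum_neg_distrib]
      refine Finset.sum_congr rfl fun k _ => ?_
      simp only [hD]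
      ring
    have h3 : (1 - inner ℝ (x j) (x j)) = (0 : ℝ) := hDself j
    rw [h2, hDsymm i j]
    rw [h3] at h1
    simp only [hD]
    linarith
  have hb : D i j * (b i - b j) = ∑ k ∈ T, b k * (D i k - D j k) := by
    have h1 := h.sum_b i
    have h1' := h.sum_b j
    rw [S5Key_split _ hij] at h1 h1'
    have h2 : ∑ k ∈ T, b k * (D i k - D j k) = ∑ k ∈ T, (1 - inner ℝ (x i) (x k)) * b k -
        ∑ k ∈ T, (1 - inner ℝ (x j) (x k)) * b k := by
      rw [← Finset.sum_sub_distrib]
      refine Finset.sum_congr rfl fun k _ => ?_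
      simp only [hD]
      ring
    have h3 : (1 - inner ℝ (x i) (x i)) = (0 : ℝ) := hDself i
    have h4 : (1 - inner ℝ (x j) (x j)) = (0 : ℝ) := hDself j
    have h5 : (1 - inner ℝ (x j) (x i)) = (1 - inner ℝ (x i) (x j) : ℝ) := hDsymm j i
    rw [h3] at h1
    rw [h4, h5] at h1'
    rw [h2]
    simp only [hD]
    linarith
  have hDij := hDpos i j hij
  have hbi := h.bpos i
  have hbj := h.bpos j
  have hp : -(q + 1) < 0 := by linarith
  by_cases hcase : a j * b i ≤ a i * b j
  · -- `a i = a j`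
    have hle2 : ∀ k ∈ T, D j k ≤ (a i / a j) ^ (1 / (q + 1)) * D i k := by
      intro k hk
      obtain ⟨hki, hkj⟩ := S5Key_mem hk
      have hak := hrest k hki hkj
      have hbk := h.bpos k
      have h1 := hK i k hki.symm
      have h2 := hK j k hkj.symm
      have hDik := hDpos i k hki.symm
      have hDjk := hDpos j k hkj.symm
      have h3 : a j * D i k ^ (-(q + 1)) ≤ a i * D j k ^ (-(q + 1)) := by
        rw [h1, h2]
        have h4 : a j * b i * b k ≤ a i * b j * b k := mul_le_mul_of_nonneg_right hcase hbk.le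
        nlinarith
      have hR : 0 < a i / a j := div_pos hi hj
      have h5 : ((a i / a j) ^ (1 / (q + 1)) * D i k) ^ (-(q + 1)) =
          (a i / a j)⁻¹ * D i k ^ (-(q + 1)) := by
        rw [Real.mul_rpow (Real.rpow_nonneg hR.le _) hDik.le, ← Real.rpow_mul hR.le]
        have h6 : 1 / (q + 1) * -(q + 1) = -1 := by
          field_simp
        rw [h6, Real.rpow_neg_one]
      rw [← Real.rpow_le_rpow_iff_of_neg (mul_pos (Real.rpow_pos_of_pos hR _) hDik) hDjk hp, h5,
        inv_div, div_mul_eq_mul_div, div_le_iff₀ hi]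
      linarith
    have hR1 : 1 ≤ a i / a j := (one_le_div hj).2 hle
    have hsum : a i * D i j ≤ (a i / a j) ^ (1 / (q + 1)) * (a j * D i j) := by
      rw [ha2, ha1, Finset.mul_sum]
      refine Finset.sum_le_sum fun k hk => ?_
      obtain ⟨hki, hkj⟩ := S5Key_mem hk
      have hak := hrest k hki hkj
      calc -(a k) * D j k ≤ -(a k) * ((a i / a j) ^ (1 / (q + 1)) * D i k) :=
            mul_le_mul_of_nonneg_left (hle2 k hk) (by linarith)
        _ = (a i / a j) ^ (1 / (q + 1)) * (-(a k) * D i k) := by ring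
    have hRR : a i / a j ≤ (a i / a j) ^ (1 / (q + 1)) := by
      rw [div_le_iff₀ hj]
      refine le_of_mul_le_mul_right ?_ hDij
      calc a i * D i j ≤ (a i / a j) ^ (1 / (q + 1)) * (a j * D i j) := hsum
        _ = (a i / a j) ^ (1 / (q + 1)) * a j * D i j := by ring
    have hab : a i = a j := by
      by_contra hne
      have h1 : a j < a i := lt_of_le_of_ne hle (Ne.symm hne)
      have h2 : 1 < a i / a j := (one_lt_div hj).2 h1
      have h3 : (a i / a j) ^ (1 / (q + 1)) < (a i / a j) ^ (1 : ℝ) := by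
        refine Real.rpow_lt_rpow_of_exponent_lt h2 ?_
        rw [div_lt_one (by linarith)]
        linarith
      rw [Real.rpow_one] at h3
      linarith
    refine ⟨hab, ?_⟩
    have hbb : b i ≤ b j := by
      rw [hab] at hcase
      exact le_of_mul_le_mul_left hcase hj
    by_contra hne
    have hlt : b i < b j := lt_of_le_of_ne hbb hne
    have hneg : D i j * (b i - b j) < 0 := mul_neg_of_pos_of_neg hDij (by linarith)
    have hnn : 0 ≤ ∑ k ∈ T, b k * (D i k - D j k) := by
      refine Finset.sum_nonneg fun k hk => ?_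
      obtain ⟨hki, hkj⟩ := S5Key_mem hk
      have hbk := h.bpos k
      refine mul_nonneg hbk.le (sub_nonneg.2 ?_)
      rw [← Real.rpow_le_rpow_iff_of_neg (hDpos i k hki.symm) (hDpos j k hkj.symm) hp,
        hK i k hki.symm, hK j k hkj.symm, hab]
      have : b i * b k ≤ b j * b k := mul_le_mul_of_nonneg_right hbb hbk.le
      linarith
    linarith
  · push Not at hcase
    exfalso
    have hbb : b j < b i := by
      have h1 : a j * b j ≤ a i * b j := mul_le_mul_of_nonneg_right hle hbj.le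
      exact lt_of_mul_lt_mul_left (h1.trans_lt hcase) hj.le
    have hpos : 0 < D i j * (b i - b j) := mul_pos hDij (by linarith)
    have hnp : ∑ k ∈ T, b k * (D i k - D j k) ≤ 0 := by
      refine Finset.sum_nonpos fun k hk => ?_
      obtain ⟨hki, hkj⟩ := S5Key_mem hk
      have hak := hrest k hki hkj
      have hbk := h.bpos k
      refine mul_nonpos_of_nonneg_of_nonpos hbk.le (sub_nonpos.2 ?_)
      rw [← Real.rpow_le_rpow_iff_of_neg (hDpos j k hkj.symm) (hDpos i k hki.symm) hp,
        hK i k hki.symm, hK j k hkj.symm]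
      have h1 : b j * b k ≤ b i * b k := mul_le_mul_of_nonneg_right hbb.le hbk.le
      have h2 : a i * a k ≤ a j * a k := mul_le_mul_of_nonpos_right hle hak
      linarith
    linarith

/-- S8 (key lemma): if exactly two coefficients `a i, a j` are positive then `a i = a j`,
`b i = b j`.
Proof.  `R = a_i/a_j`, wlog `R ≥ 1`.  S7 at `i` and `j`: `a_j D_ij = ∑ β_k D_ik`,
`a_i D_ij = ∑ β_k D_jk` (`β = -a ≥ 0` on the other indices `k`), `D_ij (b_i - b_j) =
∑_k b_k (D_ik - D_jk)`.  If `b_i/b_j > R` then `K_ik > K_jk`, `D_ik < D_jk` for all `k`, so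
`b_i ≤ b_j`, contradiction.  So `K_ik ≤ R K_jk`, `D_jk ≤ R^{1/p} D_ik` (`p = q+1`), so
`R ≤ R^{1/p}`, `R = 1` and `b_i ≤ b_j`.  If `b_i < b_j` then `K_ik < K_jk`, `D_ik > D_jk` for all
`k` (there is one), so `b_i > b_j`, contradiction. -/
theorem Splitting.key {q : ℝ} (hq : 0 < q) {x : ι → V} (hx : Conf x) {a b : ι → ℝ}
    (h : Splitting q x a b) {i j : ι} (hij : i ≠ j) (hi : 0 < a i) (hj : 0 < a j)
    (hrest : ∀ k, k ≠ i → k ≠ j → a k ≤ 0) : a i = a j ∧ b i = b j := by
  rcases le_total (a j) (a i) with hle | hle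
  · exact S5Key_aux hq hx h hij hi hj hrest hle
  · have h1 := S5Key_aux hq hx h hij.symm hj hi (fun k hkj hki => hrest k hki hkj) hle
    exact ⟨h1.1.symm, h1.2.symm⟩

/-- Mirror symmetry. -/
theorem Splitting.mirror {q : ℝ} (hq : 0 < q) {x : ι → V} (hx : Conf x) {a b : ι → ℝ}
    (h : Splitting q x a b) {i j : ι} (ha : a i = a j) (hb : b i = b j) (k : ι) (hki : k ≠ i)
    (hkj : k ≠ j) : inner ℝ (x i) (x k) = (inner ℝ (x j) (x k) : ℝ) := by
  have h1 := h.K i k hki.symm
  have h2 := h.K j k hkj.symm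
  rw [ha, hb] at h1
  have h3 : (1 - inner ℝ (x i) (x k)) ^ (-(q + 1)) = (1 - inner ℝ (x j) (x k) : ℝ) ^ (-(q + 1)) :=
    h1.trans h2.symm
  have hp : -(q + 1) < 0 := by linarith
  have d1 := hx.dd_pos (Ne.symm hki)
  have d2 := hx.dd_pos (Ne.symm hkj)
  have h4 := (Real.rpow_le_rpow_iff_of_neg d1 d2 hp).1 h3.le
  have h5 := (Real.rpow_le_rpow_iff_of_neg d2 d1 hp).1 h3.ge
  linarith

end

end Pool.Agent.RieszF
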